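import Mathlib

/-!
# CR, leaf C3a: the square of the inverse distance along a vertical segment
-/

set_option autoImplicit false

namespace Pool.Agent.Helper16.CR

open Complex Filter Topology MeasureTheory Set Metric

theorem inv_sq_eq (x y : ℝ) (ρ : ℂ) :
    (‖(x : ℂ) + (y : ℂ) * I - ρ‖⁻¹) ^ 2 = ((x - ρ.re) ^ 2 + (y - ρ.im) ^ 2)⁻¹ := by
  rw [inv_pow, Complex.sq_norm, Complex.normSq_apply]
  congr 1
  simp
  ring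

theorem inv_sq_scale {a : ℝ} (ha : 0 < a) (b y : ℝ) :
    (a ^ 2 + (y - b) ^ 2)⁻¹ = (a ^ 2)⁻¹ * (1 + ((y - b) / a) ^ 2)⁻¹ := by
  have h1 : a ≠ 0 := ha.ne'
  have h2 : a ^ 2 + (y - b) ^ 2 = a ^ 2 * (1 + ((y - b) / a) ^ 2) := by
    field_simp
  rw [h2, mul_inv]

theorem inv_sq_integrable {a : ℝ} (ha : 0 < a) (b : ℝ) :
    Integrable (fun y : ℝ => (a ^ 2 + (y - b) ^ 2)⁻¹) := by
  have h1 : Integrable (fun y : ℝ => (1 + (y / a) ^ 2)⁻¹) :=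
    integrable_inv_one_add_sq.comp_div ha.ne'
  have h2 : Integrable (fun y : ℝ => (1 + ((y - b) / a) ^ 2)⁻¹) := h1.comp_sub_right b
  refine (h2.const_mul ((a ^ 2)⁻¹)).congr ?_
  exact Eventually.of_forall fun y => (inv_sq_scale ha b y).symm

theorem inv_sq_integral {a : ℝ} (ha : 0 < a) (b : ℝ) :
    ∫ y : ℝ, (a ^ 2 + (y - b) ^ 2)⁻¹ = Real.pi / a := by
  have h0 : ∫ y : ℝ, (a ^ 2 + (y - b) ^ 2)⁻¹ = ∫ y : ℝ, (a ^ 2)⁻¹ * (1 + ((y - b) / a) ^ 2)⁻¹ :=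
    integral_congr_ae (Eventually.of_forall fun y => inv_sq_scale ha b y)
  rw [h0, integral_const_mul]
  have h1 : ∫ y : ℝ, (1 + ((y - b) / a) ^ 2)⁻¹ = ∫ y : ℝ, (1 + (y / a) ^ 2)⁻¹ :=
    integral_sub_right_eq_self (fun y : ℝ => (1 + (y / a) ^ 2)⁻¹) b
  rw [h1, Measure.integral_comp_div (fun y : ℝ => (1 + y ^ 2)⁻¹) a, integral_univ_inv_one_add_sq,
    abs_of_pos ha, smul_eq_mul]
  have h2 : a ≠ 0 := ha.ne'
  field_simp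

/-- C3a. -/
theorem inv_sq_int {δ σ : ℝ} (hδ : 0 < δ) (hσ : 0 < σ) (x : ℝ) (ρ : ℂ) (h : σ ≤ x - ρ.re) :
    IntegrableOn (fun y : ℝ => (‖(x : ℂ) + (y : ℂ) * I - ρ‖⁻¹) ^ 2) (Icc (-δ) δ) ∧
    ∫ y in Icc (-δ) δ, (‖(x : ℂ) + (y : ℂ) * I - ρ‖⁻¹) ^ 2 ≤ Real.pi / σ := by
  have ha : 0 < x - ρ.re := hσ.trans_le h
  have hfun : (fun y : ℝ => (‖(x : ℂ) + (y : ℂ) * I - ρ‖⁻¹) ^ 2) =
      fun y : ℝ => ((x - ρ.re) ^ 2 + (y - ρ.im) ^ 2)⁻¹ := funext fun y => inv_sq_eq x y ρ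
  rw [hfun]
  have hint := inv_sq_integrable ha ρ.im
  refine ⟨hint.integrableOn, ?_⟩
  calc ∫ y in Icc (-δ) δ, ((x - ρ.re) ^ 2 + (y - ρ.im) ^ 2)⁻¹
      ≤ ∫ y : ℝ, ((x - ρ.re) ^ 2 + (y - ρ.im) ^ 2)⁻¹ :=
        setIntegral_le_integral hint (Eventually.of_forall fun y => by positivity)
    _ = Real.pi / (x - ρ.re) := inv_sq_integral ha ρ.im
    _ ≤ Real.pi / σ := div_le_div_of_nonneg_left Real.pi_pos.le hσ h

end Pool.Agent.Helper16.CR
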