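/-
CR, support of the limit law, leaf U2 (helper56): the Fourier coefficients of an approximated function, and
positivity of the kernel `ell` when the positive part of `ε w - K` has mean zero.
-/
import Pool.Agent.Helper16.OM.PD

set_option autoImplicit false

namespace Pool.Agent.Helper16.CR

open Filter Topology MeasureTheory Set Complex

/-- the mean value of a character -/
theorem u2_char (ν : ℝ) : Tendsto (fun T : ℝ => ((1 / T : ℝ) : ℂ) * ∫ t in Ioc 0 T, cexp (((ν * t : ℝ) : ℂ) * I))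
    atTop (𝓝 (if ν = 0 then 1 else 0)) := by
  by_cases h : ν = 0
  · rw [if_pos h]
    refine Tendsto.congr' ?_ tendsto_const_nhds
    filter_upwards [eventually_gt_atTop (0 : ℝ)] with T hT
    have h1 : ∀ t : ℝ, cexp (((ν * t : ℝ) : ℂ) * I) = 1 := fun t => by rw [h]; simp
    simp_rw [h1]
    rw [setIntegral_const, Real.volume_real_Ioc_of_le hT.le, sub_zero, real_smul, mul_one, ← ofReal_mul,
      one_div, inv_mul_cancel₀ hT.ne', ofReal_one]
  · rw [if_neg h]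
    have hc : (ν : ℂ) * I ≠ 0 := mul_ne_zero (by exact_mod_cast h) I_ne_zero
    have h1 : Tendsto (fun T : ℝ => (2 / |ν|) * T⁻¹) atTop (𝓝 0) := by
      have := tendsto_inv_atTop_zero.const_mul (2 / |ν|) (α := ℝ)
      simpa using this
    refine squeeze_zero_norm' ?_ h1
    filter_upwards [eventually_gt_atTop (0 : ℝ)] with T hT
    have h2 : ∫ t in Ioc 0 T, cexp (((ν * t : ℝ) : ℂ) * I)
        = (cexp ((ν : ℂ) * I * T) - cexp ((ν : ℂ) * I * (0 : ℝ))) / ((ν : ℂ) * I) := by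
      rw [← integral_exp_mul_complex hc, intervalIntegral.integral_of_le hT.le]
      refine setIntegral_congr_fun measurableSet_Ioc fun t _ => ?_
      congr 1
      push_cast
      ring
    have h4 : ∀ x : ℝ, ‖cexp ((ν : ℂ) * I * x)‖ = 1 := by
      intro x
      have : (ν : ℂ) * I * x = ((ν * x : ℝ) : ℂ) * I := by
        push_cast
        ring
      rw [this, norm_exp_ofReal_mul_I]
    have h3 : ‖cexp ((ν : ℂ) * I * T) - cexp ((ν : ℂ) * I * (0 : ℝ))‖ ≤ 2 := by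
      calc _ ≤ ‖cexp ((ν : ℂ) * I * T)‖ + ‖cexp ((ν : ℂ) * I * (0 : ℝ))‖ := norm_sub_le _ _
        _ = 2 := by rw [h4, h4]; norm_num
    have hgp : 0 < |ν| := abs_pos.mpr h
    rw [h2, norm_mul, norm_div, norm_mul, norm_I, mul_one, norm_real, norm_real,
      Real.norm_eq_abs, Real.norm_eq_abs, abs_of_pos (by positivity : (0 : ℝ) < 1 / T)]
    calc 1 / T * (‖cexp ((ν : ℂ) * I * T) - cexp ((ν : ℂ) * I * (0 : ℝ))‖ / |ν|)
        ≤ 1 / T * (2 / |ν|) := by gcongr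
      _ = (2 / |ν|) * T⁻¹ := by rw [one_div, mul_comm]

/-- the mean value of a trigonometric polynomial against a character -/
theorem u2_poly (Z : Finset ℝ) (c : ℝ → ℂ) (l : ℝ) :
    Tendsto (fun T : ℝ => ((1 / T : ℝ) : ℂ) * ∫ t in Ioc 0 T,
      (∑ γ ∈ Z, c γ * cexp (((γ * t : ℝ) : ℂ) * I)) * cexp (((-(l * t) : ℝ) : ℂ) * I)) atTop
      (𝓝 (if l ∈ Z then c l else 0)) := by
  classical
  have h1 : ∀ t : ℝ, (∑ γ ∈ Z, c γ * cexp (((γ * t : ℝ) : ℂ) * I)) * cexp (((-(l * t) : ℝ) : ℂ) * I)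
      = ∑ γ ∈ Z, c γ * cexp ((((γ - l) * t : ℝ) : ℂ) * I) := by
    intro t
    rw [Finset.sum_mul]
    refine Finset.sum_congr rfl fun γ _ => ?_
    rw [mul_assoc, ← exp_add]
    congr 2
    push_cast
    ring
  have h2 : ∀ T : ℝ, ((1 / T : ℝ) : ℂ) * ∫ t in Ioc 0 T,
      (∑ γ ∈ Z, c γ * cexp (((γ * t : ℝ) : ℂ) * I)) * cexp (((-(l * t) : ℝ) : ℂ) * I)
      = ∑ γ ∈ Z, c γ * (((1 / T : ℝ) : ℂ) * ∫ t in Ioc 0 T, cexp ((((γ - l) * t : ℝ) : ℂ) * I)) := by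
    intro T
    simp_rw [h1]
    rw [integral_finsetSum, Finset.mul_sum]
    · refine Finset.sum_congr rfl fun γ _ => ?_
      rw [integral_const_mul]
      ring
    · intro γ _
      refine (Continuous.integrableOn_Ioc ?_)
      fun_prop
  simp_rw [h2]
  have h3 : (if l ∈ Z then c l else 0) = ∑ γ ∈ Z, c γ * (if γ - l = 0 then (1 : ℂ) else 0) := by
    have h4 : ∀ γ ∈ Z, c γ * (if γ - l = 0 then (1 : ℂ) else 0) = if γ = l then c γ else 0 := by
      intro γ _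
      by_cases h : γ = l
      · rw [if_pos (sub_eq_zero.mpr h), if_pos h, mul_one]
      · rw [if_neg (sub_ne_zero.mpr h), if_neg h, mul_zero]
    rw [Finset.sum_congr rfl h4, Finset.sum_ite_eq' Z l c]
  rw [h3]
  exact tendsto_finsetSum _ fun γ _ => (u2_char (γ - l)).const_mul (c γ)

theorem u2_poly_cont (Z : Finset ℝ) (c : ℝ → ℂ) :
    Continuous fun t : ℝ => ∑ γ ∈ Z, c γ * cexp (((γ * t : ℝ) : ℂ) * I) := by
  fun_prop

theorem u2_int {g : ℝ → ℂ} (hg : Measurable g) {T : ℝ} (h : IntegrableOn (fun t => ‖g t‖ ^ 2) (Ioc 0 T)) :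
    IntegrableOn g (Ioc 0 T) := by
  have h1 : IntegrableOn (fun t => 1 + ‖g t‖ ^ 2) (Ioc 0 T) :=
    (integrableOn_const (by simp)).add h
  refine Integrable.mono' h1 hg.aestronglyMeasurable (Eventually.of_forall fun t => ?_)
  nlinarith [sq_nonneg (‖g t‖ - 1), norm_nonneg (g t)]

/-- the integrability of `w` and the closeness of the means -/
theorem u2_near {w : ℝ → ℝ} (hw : Measurable w) (Z : Finset ℝ) (c : ℝ → ℂ) (l : ℝ) {e T : ℝ} (he : 0 < e)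
    (hT : 0 < T)
    (h1 : IntegrableOn (fun t => ‖(w t : ℂ) - ∑ γ ∈ Z, c γ * cexp (((γ * t : ℝ) : ℂ) * I)‖ ^ 2) (Ioc 0 T))
    (h2 : (1 / T) * ∫ t in Ioc 0 T, ‖(w t : ℂ) - ∑ γ ∈ Z, c γ * cexp (((γ * t : ℝ) : ℂ) * I)‖ ^ 2 ≤ e ^ 2) :
    IntegrableOn (fun t => (w t : ℂ)) (Ioc 0 T) ∧
    ‖((1 / T : ℝ) : ℂ) * (∫ t in Ioc 0 T, (w t : ℂ) * cexp (((-(l * t) : ℝ) : ℂ) * I)) -
      ((1 / T : ℝ) : ℂ) * ∫ t in Ioc 0 T,
        (∑ γ ∈ Z, c γ * cexp (((γ * t : ℝ) : ℂ) * I)) * cexp (((-(l * t) : ℝ) : ℂ) * I)‖ ≤ e := by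
  set P : ℝ → ℂ := fun t => ∑ γ ∈ Z, c γ * cexp (((γ * t : ℝ) : ℂ) * I) with hP
  have hPc : Continuous P := u2_poly_cont Z c
  have hgm : Measurable fun t => (w t : ℂ) - P t := (measurable_ofReal.comp hw).sub hPc.measurable
  have hgi : IntegrableOn (fun t => (w t : ℂ) - P t) (Ioc 0 T) := u2_int hgm h1
  have hPi : IntegrableOn P (Ioc 0 T) := hPc.integrableOn_Ioc
  have hwi : IntegrableOn (fun t => (w t : ℂ)) (Ioc 0 T) := by
    refine (hgi.add hPi).congr (Eventually.of_forall fun t => ?_)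
    simp
  refine ⟨hwi, ?_⟩
  have hEm : Continuous fun t : ℝ => cexp (((-(l * t) : ℝ) : ℂ) * I) := by fun_prop
  have hEn : ∀ t : ℝ, ‖cexp (((-(l * t) : ℝ) : ℂ) * I)‖ ≤ 1 := fun t => (norm_exp_ofReal_mul_I _).le
  have hmul : ∀ {f : ℝ → ℂ}, IntegrableOn f (Ioc 0 T) →
      IntegrableOn (fun t => f t * cexp (((-(l * t) : ℝ) : ℂ) * I)) (Ioc 0 T) := by
    intro f hf
    exact hf.mul_bdd hEm.aestronglyMeasurable (Eventually.of_forall hEn)
  rw [← mul_sub, ← integral_sub (hmul hwi) (hmul hPi), norm_mul, norm_real, Real.norm_eq_abs,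
    abs_of_pos (by positivity : (0 : ℝ) < 1 / T)]
  have h3 : ‖∫ t in Ioc 0 T, ((w t : ℂ) * cexp (((-(l * t) : ℝ) : ℂ) * I) -
      P t * cexp (((-(l * t) : ℝ) : ℂ) * I))‖ ≤ ∫ t in Ioc 0 T, (‖(w t : ℂ) - P t‖ ^ 2 * (1 / (2 * e)) + e / 2) := by
    refine norm_integral_le_of_norm_le ?_ (Eventually.of_forall fun t => ?_)
    · exact (Integrable.mul_const h1 _).add (integrableOn_const (by simp))
    · rw [← sub_mul, norm_mul, norm_exp_ofReal_mul_I, mul_one]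
      have h4 : ‖(w t : ℂ) - P t‖ ^ 2 * (1 / (2 * e)) + e / 2 - ‖(w t : ℂ) - P t‖ =
          (‖(w t : ℂ) - P t‖ - e) ^ 2 * (1 / (2 * e)) := by
        field_simp
        ring
      have h5 : 0 ≤ (‖(w t : ℂ) - P t‖ - e) ^ 2 * (1 / (2 * e)) := by positivity
      linarith
  have h4 : ∫ t in Ioc 0 T, (‖(w t : ℂ) - P t‖ ^ 2 * (1 / (2 * e)) + e / 2) =
      (∫ t in Ioc 0 T, ‖(w t : ℂ) - P t‖ ^ 2) * (1 / (2 * e)) + T * (e / 2) := by
    rw [integral_add (Integrable.mul_const h1 _) (integrableOn_const (by simp)), integral_mul_const,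
      setIntegral_const, Real.volume_real_Ioc_of_le hT.le, sub_zero, smul_eq_mul]
  rw [h4] at h3
  calc 1 / T * ‖∫ t in Ioc 0 T, ((w t : ℂ) * cexp (((-(l * t) : ℝ) : ℂ) * I) -
      P t * cexp (((-(l * t) : ℝ) : ℂ) * I))‖
      ≤ 1 / T * ((∫ t in Ioc 0 T, ‖(w t : ℂ) - P t‖ ^ 2) * (1 / (2 * e)) + T * (e / 2)) := by gcongr
    _ = (1 / T * ∫ t in Ioc 0 T, ‖(w t : ℂ) - P t‖ ^ 2) * (1 / (2 * e)) + e / 2 := by
        field_simp
    _ ≤ e ^ 2 * (1 / (2 * e)) + e / 2 := by gcongr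
    _ = e := by field_simp; ring

/-- U2 (a), for every `l`. -/
theorem fourier_coeff' {w : ℝ → ℝ} (hw : Measurable w) {mm : ℝ → ℕ}
    (hap : ∀ δ : ℝ, 0 < δ → ∀ Z0 : Finset ℝ, (0 : ℝ) ∉ Z0 → ∃ Z : Finset ℝ, Z0 ⊆ Z ∧ (0 : ℝ) ∉ Z ∧
      ∀ᶠ T : ℝ in atTop,
        IntegrableOn (fun t => ‖(w t : ℂ) - ∑ γ ∈ Z, (mm γ : ℂ) / ((γ : ℂ) * I) * cexp (((γ * t : ℝ) : ℂ) * I)‖ ^ 2)
          (Ioc 0 T) ∧
        (1 / T) * ∫ t in Ioc 0 T,
          ‖(w t : ℂ) - ∑ γ ∈ Z, (mm γ : ℂ) / ((γ : ℂ) * I) * cexp (((γ * t : ℝ) : ℂ) * I)‖ ^ 2 ≤ δ) (l : ℝ) :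
    Tendsto (fun T : ℝ => ((1 / T : ℝ) : ℂ) * ∫ t in Ioc 0 T, (w t : ℂ) * cexp (((-(l * t) : ℝ) : ℂ) * I)) atTop
      (𝓝 ((mm l : ℂ) / ((l : ℂ) * I))) := by
  classical
  rw [Metric.tendsto_nhds]
  intro e he
  have hZ0 : (0 : ℝ) ∉ (if l = 0 then (∅ : Finset ℝ) else {l}) := by
    split_ifs with h
    · simp
    · simpa using Ne.symm h
  obtain ⟨Z, hZ1, hZ2, hZ3⟩ := hap ((e / 3) ^ 2) (by positivity) _ hZ0
  have hlim : (if l ∈ Z then (mm l : ℂ) / ((l : ℂ) * I) else 0) = (mm l : ℂ) / ((l : ℂ) * I) := by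
    by_cases h : l = 0
    · rw [h, if_neg hZ2]
      simp
    · rw [if_neg h] at hZ1
      rw [if_pos (hZ1 (Finset.mem_singleton_self l))]
  have h1 := u2_poly Z (fun γ => (mm γ : ℂ) / ((γ : ℂ) * I)) l
  rw [hlim, Metric.tendsto_nhds] at h1
  filter_upwards [hZ3, h1 (e / 3) (by positivity), eventually_gt_atTop (0 : ℝ)] with T h2 h3 hT
  have h4 := (u2_near hw Z (fun γ => (mm γ : ℂ) / ((γ : ℂ) * I)) l (by positivity : 0 < e / 3) hT h2.1 h2.2).2
  rw [← dist_eq_norm] at h4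
  have h5 := dist_triangle (((1 / T : ℝ) : ℂ) * (∫ t in Ioc 0 T, (w t : ℂ) * cexp (((-(l * t) : ℝ) : ℂ) * I)))
    (((1 / T : ℝ) : ℂ) * ∫ t in Ioc 0 T,
        (∑ γ ∈ Z, (mm γ : ℂ) / ((γ : ℂ) * I) * cexp (((γ * t : ℝ) : ℂ) * I)) * cexp (((-(l * t) : ℝ) : ℂ) * I))
    ((mm l : ℂ) / ((l : ℂ) * I))
  linarith

/-- U2 (a). -/
theorem fourier_coeff {w : ℝ → ℝ} (hw : Measurable w) {mm : ℝ → ℕ}
    (hap : ∀ δ : ℝ, 0 < δ → ∀ Z0 : Finset ℝ, (0 : ℝ) ∉ Z0 → ∃ Z : Finset ℝ, Z0 ⊆ Z ∧ (0 : ℝ) ∉ Z ∧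
      ∀ᶠ T : ℝ in atTop,
        IntegrableOn (fun t => ‖(w t : ℂ) - ∑ γ ∈ Z, (mm γ : ℂ) / ((γ : ℂ) * I) * cexp (((γ * t : ℝ) : ℂ) * I)‖ ^ 2)
          (Ioc 0 T) ∧
        (1 / T) * ∫ t in Ioc 0 T,
          ‖(w t : ℂ) - ∑ γ ∈ Z, (mm γ : ℂ) / ((γ : ℂ) * I) * cexp (((γ * t : ℝ) : ℂ) * I)‖ ^ 2 ≤ δ) (l : ℝ)
    (hl : l ≠ 0) :
    Tendsto (fun T : ℝ => ((1 / T : ℝ) : ℂ) * ∫ t in Ioc 0 T, (w t : ℂ) * cexp (((-(l * t) : ℝ) : ℂ) * I)) atTop
      (𝓝 ((mm l : ℂ) / ((l : ℂ) * I))) :=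
  fourier_coeff' hw hap l

/-- U2 (b). -/
theorem pd_of_mean {w : ℝ → ℝ} (hw : Measurable w) {mm : ℝ → ℕ}
    (hap : ∀ δ : ℝ, 0 < δ → ∀ Z0 : Finset ℝ, (0 : ℝ) ∉ Z0 → ∃ Z : Finset ℝ, Z0 ⊆ Z ∧ (0 : ℝ) ∉ Z ∧
      ∀ᶠ T : ℝ in atTop,
        IntegrableOn (fun t => ‖(w t : ℂ) - ∑ γ ∈ Z, (mm γ : ℂ) / ((γ : ℂ) * I) * cexp (((γ * t : ℝ) : ℂ) * I)‖ ^ 2)
          (Ioc 0 T) ∧
        (1 / T) * ∫ t in Ioc 0 T,
          ‖(w t : ℂ) - ∑ γ ∈ Z, (mm γ : ℂ) / ((γ : ℂ) * I) * cexp (((γ * t : ℝ) : ℂ) * I)‖ ^ 2 ≤ δ)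
    (ε : ℝ) (hε : ε = 1 ∨ ε = -1) (K : ℝ)
    (hK : Tendsto (fun T : ℝ => (1 / T) * ∫ t in Ioc 0 T, max (ε * w t - K) 0) atTop (𝓝 0)) (B : Finset ℝ) (τ : ℝ) :
    0 ≤ ∑ x ∈ B, ∑ y ∈ B, (cexp (((x - y) * τ : ℝ) * I) * Pool.Agent.Helper16.OM.ell K ε mm (x - y)).re := by
  classical
  -- `w` is integrable
  have hwi : ∀ᶠ T : ℝ in atTop, IntegrableOn (fun t => (w t : ℂ)) (Ioc 0 T) := by
    obtain ⟨Z, -, -, hZ3⟩ := hap 1 one_pos ∅ (by simp)
    filter_upwards [hZ3, eventually_gt_atTop (0 : ℝ)] with T h2 hT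
    exact (u2_near hw Z (fun γ => (mm γ : ℂ) / ((γ : ℂ) * I)) 0 one_pos hT h2.1 (by simpa using h2.2)).1
  have hE : ∀ μ T : ℝ, ∀ {f : ℝ → ℂ}, IntegrableOn f (Ioc 0 T) →
      IntegrableOn (fun t => f t * cexp (((-(μ * t) : ℝ) : ℂ) * I)) (Ioc 0 T) := by
    intro μ T f hf
    have hEm : Continuous fun t : ℝ => cexp (((-(μ * t) : ℝ) : ℂ) * I) := by fun_prop
    exact hf.mul_bdd hEm.aestronglyMeasurable
      (Eventually.of_forall fun t => (norm_exp_ofReal_mul_I _).le)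
  set E : ℝ → ℝ → ℂ := fun μ T =>
    ((1 / T : ℝ) : ℂ) * ∫ t in Ioc 0 T, (((K : ℂ) - ε * w t) * cexp (((-(μ * t) : ℝ) : ℂ) * I)) with hEdef
  have hbi : ∀ T : ℝ, IntegrableOn (fun t => (w t : ℂ)) (Ioc 0 T) →
      IntegrableOn (fun t => (K : ℂ) - ε * w t) (Ioc 0 T) := by
    intro T h
    exact (integrableOn_const (by simp)).sub (Integrable.const_mul h _)
  -- the limits
  have hlim : ∀ μ : ℝ, Tendsto (E μ) atTop (𝓝 (Pool.Agent.Helper16.OM.ell K ε mm μ)) := by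
    intro μ
    have h1 := (u2_char (-μ)).const_mul (K : ℂ)
    have h2 := (fourier_coeff' hw hap μ).const_mul (ε : ℂ)
    have h3 := h1.sub h2
    have h4 : (K : ℂ) * (if -μ = 0 then 1 else 0) - ε * ((mm μ : ℂ) / ((μ : ℂ) * I)) =
        Pool.Agent.Helper16.OM.ell K ε mm μ := by
      unfold Pool.Agent.Helper16.OM.ell
      by_cases h : μ = 0
      · rw [if_pos (by rw [h]; simp), if_pos h, h]
        simp
      · rw [if_neg (by simpa using h), if_neg h]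
        have hμ : (μ : ℂ) ≠ 0 := by exact_mod_cast h
        have hI : (I : ℂ) ≠ 0 := I_ne_zero
        field_simp
        rw [I_sq]
        ring
    rw [h4] at h3
    refine h3.congr' ?_
    filter_upwards [hwi] with T hT
    simp only [hEdef]
    have h5 : ∫ t in Ioc 0 T, (((K : ℂ) - ε * w t) * cexp (((-(μ * t) : ℝ) : ℂ) * I)) =
        (K : ℂ) * (∫ t in Ioc 0 T, cexp (((-μ * t : ℝ) : ℂ) * I)) -
          ε * ∫ t in Ioc 0 T, (w t : ℂ) * cexp (((-(μ * t) : ℝ) : ℂ) * I) := by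
      rw [← integral_const_mul, ← integral_const_mul, ← integral_sub]
      · refine setIntegral_congr_fun measurableSet_Ioc fun t _ => ?_
        simp only [neg_mul]
        ring
      · have hc : Continuous fun t : ℝ => (K : ℂ) * cexp (((-μ * t : ℝ) : ℂ) * I) := by fun_prop
        exact hc.integrableOn_Ioc
      · exact Integrable.const_mul (hE μ T hT) _
    rw [h5]
    ring
  -- the integral against the test function
  have hI : ∀ T : ℝ, IntegrableOn (fun t => (w t : ℂ)) (Ioc 0 T) →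
      (1 / T) * ∫ t in Ioc 0 T, (K - ε * w t) * Pool.Agent.Helper16.OM.pp B τ t =
      ∑ x ∈ B, ∑ y ∈ B, (cexp (((x - y) * τ : ℝ) * I) * E (x - y) T).re := by
    intro T hT
    have hb := hbi T hT
    have h2 : ∀ μ : ℝ, (cexp ((μ * τ : ℝ) * I) * E μ T).re =
        (1 / T) * ∫ t in Ioc 0 T, (K - ε * w t) * Real.cos (μ * (t - τ)) := by
      intro μ
      have h3 : Integrable (fun t : ℝ => cexp ((μ * τ : ℝ) * I) *
          (((K : ℂ) - ε * w t) * cexp (((-(μ * t) : ℝ) : ℂ) * I))) (volume.restrict (Ioc 0 T)) :=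
        Integrable.const_mul (hE μ T hb) _
      have h4 := reCLM.integral_comp_comm h3
      simp only [reCLM_apply] at h4
      have h5 : cexp ((μ * τ : ℝ) * I) * E μ T = ((1 / T : ℝ) : ℂ) * ∫ t in Ioc 0 T, cexp ((μ * τ : ℝ) * I) *
          (((K : ℂ) - ε * w t) * cexp (((-(μ * t) : ℝ) : ℂ) * I)) := by
        rw [integral_const_mul]
        simp only [hEdef]
        ring
      rw [h5, re_ofReal_mul, ← h4]
      congr 1
      refine setIntegral_congr_fun measurableSet_Ioc fun t _ => ?_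
      have e1 : cexp ((μ * τ : ℝ) * I) * (((K : ℂ) - ε * w t) * cexp (((-(μ * t) : ℝ) : ℂ) * I)) =
          ((K - ε * w t : ℝ) : ℂ) * cexp ((-(μ * (t - τ)) : ℝ) * I) := by
        have e2 : cexp ((μ * τ : ℝ) * I) * cexp (((-(μ * t) : ℝ) : ℂ) * I) =
            cexp ((-(μ * (t - τ)) : ℝ) * I) := by
          rw [← exp_add]
          congr 1
          push_cast
          ring
        rw [← e2]
        push_cast
        ring
      rw [e1, re_ofReal_mul, exp_ofReal_mul_I_re, Real.cos_neg]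
    have hbr : IntegrableOn (fun t => K - ε * w t) (Ioc 0 T) := by
      have h6 := hb.re
      refine h6.congr (Eventually.of_forall fun t => ?_)
      simp
    have h5 : ∀ μ : ℝ, IntegrableOn (fun t : ℝ => (K - ε * w t) * Real.cos (μ * (t - τ))) (Ioc 0 T) := by
      intro μ
      have hc : Continuous fun t : ℝ => Real.cos (μ * (t - τ)) := by fun_prop
      exact hbr.mul_bdd hc.aestronglyMeasurable
        (Eventually.of_forall fun t => by rw [Real.norm_eq_abs]; exact Real.abs_cos_le_one _)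
    simp_rw [h2]
    have h6 : ∀ t, (K - ε * w t) * Pool.Agent.Helper16.OM.pp B τ t =
        ∑ x ∈ B, ∑ y ∈ B, (K - ε * w t) * Real.cos ((x - y) * (t - τ)) := by
      intro t
      unfold Pool.Agent.Helper16.OM.pp
      rw [Finset.mul_sum]
      refine Finset.sum_congr rfl fun x _ => ?_
      rw [Finset.mul_sum]
    simp_rw [h6]
    rw [integral_finsetSum _ fun x _ => integrable_finsetSum _ fun y _ => h5 (x - y), Finset.mul_sum]
    refine Finset.sum_congr rfl fun x _ => ?_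
    rw [integral_finsetSum _ fun y _ => h5 (x - y), Finset.mul_sum]
  -- the limit of the means
  have hT : Tendsto (fun T : ℝ => ∑ x ∈ B, ∑ y ∈ B, (cexp (((x - y) * τ : ℝ) * I) * E (x - y) T).re) atTop
      (𝓝 (∑ x ∈ B, ∑ y ∈ B, (cexp (((x - y) * τ : ℝ) * I) * Pool.Agent.Helper16.OM.ell K ε mm (x - y)).re)) := by
    refine tendsto_finsetSum _ fun x _ => tendsto_finsetSum _ fun y _ => ?_
    exact (continuous_re.tendsto _).comp ((hlim (x - y)).const_mul _)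
  have hT2 : Tendsto (fun T : ℝ => -((B.card : ℝ) ^ 2) * ((1 / T) * ∫ t in Ioc 0 T, max (ε * w t - K) 0)) atTop
      (𝓝 0) := by
    have := hK.const_mul (-((B.card : ℝ) ^ 2))
    rwa [mul_zero] at this
  refine le_of_tendsto_of_tendsto hT2 hT ?_
  filter_upwards [hwi, eventually_gt_atTop (0 : ℝ)] with T h1 hT0
  rw [← hI T h1]
  have hbr : IntegrableOn (fun t => K - ε * w t) (Ioc 0 T) := by
    have h6 := (hbi T h1).re
    refine h6.congr (Eventually.of_forall fun t => ?_)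
    simp
  have hm : IntegrableOn (fun t => max (ε * w t - K) 0) (Ioc 0 T) := by
    refine Integrable.mono' hbr.abs ?_ (Eventually.of_forall fun t => ?_)
    · exact (((hw.const_mul ε).sub_const K).max measurable_const).aestronglyMeasurable
    · rw [Real.norm_eq_abs, abs_of_nonneg (le_max_right _ _)]
      refine max_le ?_ (abs_nonneg _)
      rw [abs_sub_comm]
      exact le_abs_self _
  have hppm : Measurable (Pool.Agent.Helper16.OM.pp B τ) := Pool.Agent.Helper16.OM.measurable_pp B τ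
  have hfi : IntegrableOn (fun t => (K - ε * w t) * Pool.Agent.Helper16.OM.pp B τ t) (Ioc 0 T) := by
    refine hbr.mul_bdd (c := (B.card : ℝ) ^ 2) hppm.aestronglyMeasurable (Eventually.of_forall fun t => ?_)
    rw [Real.norm_eq_abs, abs_of_nonneg (Pool.Agent.Helper16.OM.pp_nonneg B τ t)]
    exact Pool.Agent.Helper16.OM.pp_le B τ t
  have h2 : ∫ t in Ioc 0 T, -((B.card : ℝ) ^ 2) * max (ε * w t - K) 0 ≤
      ∫ t in Ioc 0 T, (K - ε * w t) * Pool.Agent.Helper16.OM.pp B τ t := by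
    refine setIntegral_mono_on (Integrable.const_mul hm _) hfi measurableSet_Ioc fun t _ => ?_
    have h3 := Pool.Agent.Helper16.OM.pp_nonneg B τ t
    have h4 := Pool.Agent.Helper16.OM.pp_le B τ t
    have h5 : -(max (ε * w t - K) 0) ≤ K - ε * w t := by
      have := le_max_left (ε * w t - K) 0
      linarith
    have h6 : 0 ≤ max (ε * w t - K) 0 := le_max_right _ _
    nlinarith
  rw [integral_const_mul] at h2
  calc -((B.card : ℝ) ^ 2) * ((1 / T) * ∫ t in Ioc 0 T, max (ε * w t - K) 0)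
      = (1 / T) * (-((B.card : ℝ) ^ 2) * ∫ t in Ioc 0 T, max (ε * w t - K) 0) := by ring
    _ ≤ _ := by gcongr

end Pool.Agent.Helper16.CR
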