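/-
CR, limiting distribution, leaf D3 (helper56): a real function that is approximated in quadratic mean by
trigonometric polynomials has a mean value of `Phi (u t)` for every bounded continuous `Phi`.
-/
import Mathlib

set_option autoImplicit false

namespace Pool.Agent.Helper56.CR.D3

open MeasureTheory Filter Topology

/-- The character `t => exp (i g t)`. -/
noncomputable def chi (g : ℝ) : ℝ → ℂ := fun t => Complex.exp (Complex.I * g * t)

/-- Trigonometric polynomials. -/
noncomputable def TP : Submodule ℂ (ℝ → ℂ) := Submodule.span ℂ (Set.range chi)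

lemma chi_mem (g : ℝ) : chi g ∈ TP := Submodule.subset_span ⟨g, rfl⟩

lemma chi_mul (g h : ℝ) : chi g * chi h = chi (g + h) := by
  funext t
  simp only [chi, Pi.mul_apply, ← Complex.exp_add]
  congr 1
  push_cast
  ring

lemma one_mem : (1 : ℝ → ℂ) ∈ TP := by
  have h : (1 : ℝ → ℂ) = chi 0 := by
    funext t
    simp [chi]
  rw [h]
  exact chi_mem 0

lemma mul_mem {f g : ℝ → ℂ} (hf : f ∈ TP) (hg : g ∈ TP) : f * g ∈ TP := by
  induction hf using Submodule.span_induction with
  | mem x hx =>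
    obtain ⟨a, rfl⟩ := hx
    induction hg using Submodule.span_induction with
    | mem y hy =>
      obtain ⟨b, rfl⟩ := hy
      rw [chi_mul]
      exact chi_mem _
    | zero => simp
    | add y z _ _ h1 h2 => rw [mul_add]; exact TP.add_mem h1 h2
    | smul r y _ h1 => rw [mul_smul_comm]; exact TP.smul_mem r h1
  | zero => simp
  | add x y _ _ h1 h2 => rw [add_mul]; exact TP.add_mem h1 h2
  | smul r x _ h1 => rw [smul_mul_assoc]; exact TP.smul_mem r h1

lemma pow_mem {f : ℝ → ℂ} (hf : f ∈ TP) (n : ℕ) : f ^ n ∈ TP := by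
  induction n with
  | zero => rw [pow_zero]; exact one_mem
  | succ n ih => rw [pow_succ]; exact mul_mem ih hf

lemma conj_mem {f : ℝ → ℂ} (hf : f ∈ TP) : (fun t => (starRingEnd ℂ) (f t)) ∈ TP := by
  induction hf using Submodule.span_induction with
  | mem x hx =>
    obtain ⟨a, rfl⟩ := hx
    have h : (fun t => (starRingEnd ℂ) (chi a t)) = chi (-a) := by
      funext t
      simp only [chi, ← Complex.exp_conj]
      congr 1
      simp
    rw [h]
    exact chi_mem _
  | zero =>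
    have h : (fun t : ℝ => (starRingEnd ℂ) ((0 : ℝ → ℂ) t)) = 0 := by
      funext t
      simp
    rw [h]
    exact TP.zero_mem
  | add x y _ _ h1 h2 =>
    have h : (fun t => (starRingEnd ℂ) ((x + y) t))
        = (fun t => (starRingEnd ℂ) (x t)) + fun t => (starRingEnd ℂ) (y t) := by
      funext t
      simp
    rw [h]
    exact TP.add_mem h1 h2
  | smul r x _ h1 =>
    have h : (fun t => (starRingEnd ℂ) ((r • x) t))
        = (starRingEnd ℂ) r • fun t => (starRingEnd ℂ) (x t) := by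
      funext t
      simp
    rw [h]
    exact TP.smul_mem _ h1

lemma re_mem {f : ℝ → ℂ} (hf : f ∈ TP) : (fun t => (((f t).re : ℝ) : ℂ)) ∈ TP := by
  have h : (fun t => (((f t).re : ℝ) : ℂ))
      = (1 / 2 : ℂ) • (f + fun t => (starRingEnd ℂ) (f t)) := by
    funext t
    simp only [Pi.smul_apply, Pi.add_apply, smul_eq_mul, Complex.add_conj]
    push_cast
    ring
  rw [h]
  exact TP.smul_mem _ (TP.add_mem hf (conj_mem hf))

/-- Continuous, with a mean value. -/
def HM (f : ℝ → ℂ) : Prop :=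
  Continuous f ∧ ∃ L : ℂ, Tendsto (fun T : ℝ => ((1 / T : ℝ) : ℂ) * ∫ t in (0 : ℝ)..T, f t) atTop (𝓝 L)

lemma chi_cont (g : ℝ) : Continuous (chi g) := by
  unfold chi
  fun_prop

lemma chi_norm (g t : ℝ) : ‖chi g t‖ = 1 := by
  unfold chi
  rw [Complex.norm_exp]
  simp

lemma hm_chi (g : ℝ) : HM (chi g) := by
  refine ⟨chi_cont g, ?_⟩
  by_cases hg : g = 0
  · subst hg
    refine ⟨1, ?_⟩
    refine Tendsto.congr' ?_ tendsto_const_nhds
    filter_upwards [eventually_gt_atTop (0 : ℝ)] with T hT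
    have h : chi 0 = fun _ => (1 : ℂ) := by
      funext t
      simp [chi]
    rw [h, intervalIntegral.integral_const]
    have hT' : (T : ℂ) ≠ 0 := by exact_mod_cast hT.ne'
    simp
    field_simp
  · refine ⟨0, ?_⟩
    have hc : Complex.I * (g : ℂ) ≠ 0 := mul_ne_zero Complex.I_ne_zero (by exact_mod_cast hg)
    have h1 : Tendsto (fun T : ℝ => (2 / |g|) * T⁻¹) atTop (𝓝 0) := by
      have := tendsto_inv_atTop_zero.const_mul (2 / |g|) (α := ℝ)
      simpa using this
    refine squeeze_zero_norm' ?_ h1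
    filter_upwards [eventually_gt_atTop (0 : ℝ)] with T hT
    have h2 : ∫ t in (0 : ℝ)..T, chi g t
        = (Complex.exp (Complex.I * g * T) - Complex.exp (Complex.I * g * (0 : ℝ))) / (Complex.I * g) := by
      unfold chi
      exact integral_exp_mul_complex hc
    rw [h2, norm_mul, norm_div, norm_mul, Complex.norm_I, one_mul, Complex.norm_real, Complex.norm_real,
      Real.norm_eq_abs, Real.norm_eq_abs, abs_of_pos (by positivity : (0 : ℝ) < 1 / T)]
    have h3 : ‖Complex.exp (Complex.I * g * T) - Complex.exp (Complex.I * g * (0 : ℝ))‖ ≤ 2 := by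
      have ha : ‖Complex.exp (Complex.I * g * T)‖ = 1 := chi_norm g T
      have hb : ‖Complex.exp (Complex.I * g * (0 : ℝ))‖ = 1 := chi_norm g 0
      calc _ ≤ ‖Complex.exp (Complex.I * g * T)‖ + ‖Complex.exp (Complex.I * g * (0 : ℝ))‖ := norm_sub_le _ _
        _ = 2 := by rw [ha, hb]; norm_num
    have hgp : 0 < |g| := abs_pos.mpr hg
    calc 1 / T * (‖Complex.exp (Complex.I * g * T) - Complex.exp (Complex.I * g * (0 : ℝ))‖ / |g|)
        ≤ 1 / T * (2 / |g|) := by gcongr
      _ = (2 / |g|) * T⁻¹ := by rw [one_div, mul_comm]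

lemma hm_of_mem {f : ℝ → ℂ} (hf : f ∈ TP) : HM f := by
  induction hf using Submodule.span_induction with
  | mem x hx =>
    obtain ⟨a, rfl⟩ := hx
    exact hm_chi a
  | zero =>
    refine ⟨continuous_const, 0, ?_⟩
    simp
  | add x y _ _ h1 h2 =>
    obtain ⟨c1, L1, l1⟩ := h1
    obtain ⟨c2, L2, l2⟩ := h2
    refine ⟨c1.add c2, L1 + L2, ?_⟩
    refine (l1.add l2).congr fun T => ?_
    simp only [Pi.add_apply]
    rw [intervalIntegral.integral_add (c1.intervalIntegrable _ _) (c2.intervalIntegrable _ _), mul_add]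
  | smul r x _ h1 =>
    obtain ⟨c1, L1, l1⟩ := h1
    refine ⟨c1.const_smul r, r * L1, ?_⟩
    refine (l1.const_mul r).congr fun T => ?_
    simp only [Pi.smul_apply, smul_eq_mul]
    rw [intervalIntegral.integral_const_mul]
    ring

/-- The average over `[0, T]`. -/
noncomputable def av (f : ℝ → ℝ) (T : ℝ) : ℝ := (1 / T) * ∫ t in (0 : ℝ)..T, f t

lemma real_mean {f : ℝ → ℝ} (hf : (fun t => ((f t : ℝ) : ℂ)) ∈ TP) :
    ∃ L : ℝ, Tendsto (av f) atTop (𝓝 L) := by
  obtain ⟨_, L, l⟩ := hm_of_mem hf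
  refine ⟨L.re, ?_⟩
  refine ((Complex.continuous_re.tendsto _).comp l).congr fun T => ?_
  simp only [Function.comp_apply, av]
  rw [intervalIntegral.integral_ofReal, ← Complex.ofReal_mul, Complex.ofReal_re]

lemma poly_mem {p : ℝ → ℝ} (hp : (fun t => ((p t : ℝ) : ℂ)) ∈ TP) (q : Polynomial ℝ) :
    (fun t => ((q.eval (p t) : ℝ) : ℂ)) ∈ TP := by
  induction q using Polynomial.induction_on' with
  | add a b h1 h2 =>
    have h : (fun t => (((a + b).eval (p t) : ℝ) : ℂ))
        = (fun t => ((a.eval (p t) : ℝ) : ℂ)) + fun t => ((b.eval (p t) : ℝ) : ℂ) := by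
      funext t
      simp
    rw [h]
    exact TP.add_mem h1 h2
  | monomial n a =>
    have h : (fun t => (((Polynomial.monomial n a).eval (p t) : ℝ) : ℂ))
        = (a : ℂ) • (fun t => ((p t : ℝ) : ℂ)) ^ n := by
      funext t
      simp [Polynomial.eval_monomial]
    rw [h]
    exact TP.smul_mem _ (pow_mem hp n)

/-- A function of `T` that is approximated by convergent ones converges. -/
lemma lim_of_approx {F : ℝ → ℝ}
    (h : ∀ e > 0, ∃ G : ℝ → ℝ, (∃ L, Tendsto G atTop (𝓝 L)) ∧ ∀ᶠ T in atTop, |F T - G T| ≤ e) :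
    ∃ L, Tendsto F atTop (𝓝 L) := by
  have hc : Cauchy (map F atTop) := by
    rw [Metric.cauchy_iff]
    refine ⟨inferInstance, fun e he => ?_⟩
    obtain ⟨G, ⟨L, hL⟩, hG⟩ := h (e / 4) (by positivity)
    refine ⟨Metric.ball L (e / 2), ?_, ?_⟩
    · rw [mem_map]
      have h1 := Metric.tendsto_nhds.mp hL (e / 4) (by positivity)
      filter_upwards [h1, hG] with T h1 h2
      rw [Set.mem_preimage, Metric.mem_ball]
      rw [Real.dist_eq] at h1 ⊢
      have : |F T - L| ≤ |F T - G T| + |G T - L| := abs_sub_le _ _ _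
      linarith
    · intro x hx y hy
      rw [Metric.mem_ball] at hx hy
      have := dist_triangle_right x y L
      linarith
  exact cauchy_map_iff_exists_tendsto.mp hc

lemma av_le {f g h : ℝ → ℝ} {T : ℝ} (hT : 0 < T) (hf : IntervalIntegrable f volume 0 T)
    (hg : IntervalIntegrable g volume 0 T) (hh : IntervalIntegrable h volume 0 T)
    (hle : ∀ t, |f t - g t| ≤ h t) : |av f T - av g T| ≤ av h T := by
  unfold av
  rw [← mul_sub, abs_mul, abs_of_pos (by positivity : (0 : ℝ) < 1 / T),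
    ← intervalIntegral.integral_sub hf hg]
  have h1 : |∫ t in (0 : ℝ)..T, (f t - g t)| ≤ ∫ t in (0 : ℝ)..T, h t := by
    have := intervalIntegral.norm_integral_le_of_norm_le (f := fun t => f t - g t) (g := h) hT.le
      (ae_of_all _ fun t _ => by simpa [Real.norm_eq_abs] using hle t) hh
    simpa [Real.norm_eq_abs] using this
  gcongr

lemma av_const {c T : ℝ} (hT : 0 < T) : av (fun _ => c) T = c := by
  unfold av
  rw [intervalIntegral.integral_const]
  simp only [sub_zero, smul_eq_mul]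
  field_simp

lemma ii_bdd {f : ℝ → ℝ} (hf : Measurable f) {C : ℝ} (hC : ∀ t, |f t| ≤ C) (T : ℝ) :
    IntervalIntegrable f volume 0 T :=
  (intervalIntegrable_const (c := C)).mono_fun' hf.aestronglyMeasurable
    (ae_of_all _ fun t => by simpa [Real.norm_eq_abs] using hC t)

/-- Continuous functions of a real trigonometric polynomial have a mean. -/
lemma mean_comp {p : ℝ → ℝ} (hp : (fun t => ((p t : ℝ) : ℂ)) ∈ TP) (hpc : Continuous p) {R : ℝ}
    (hR : ∀ t, |p t| ≤ R) {Phi : ℝ → ℝ} (hPhi : Continuous Phi) :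
    ∃ L, Tendsto (av fun t => Phi (p t)) atTop (𝓝 L) := by
  refine lim_of_approx fun e he => ?_
  obtain ⟨q, hq⟩ := exists_polynomial_near_of_continuousOn (-R) R Phi hPhi.continuousOn e he
  refine ⟨av fun t => q.eval (p t), real_mean (poly_mem hp q), ?_⟩
  filter_upwards [eventually_gt_atTop (0 : ℝ)] with T hT
  have h1 := av_le (f := fun t => Phi (p t)) (g := fun t => q.eval (p t)) (h := fun _ => e) hT
    ((hPhi.comp hpc).intervalIntegrable _ _) ((q.continuous.comp hpc).intervalIntegrable _ _)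
    intervalIntegrable_const (fun t => by
      have := hq (p t) ⟨(abs_le.mp (hR t)).1, (abs_le.mp (hR t)).2⟩
      rw [abs_sub_comm] at this
      exact this.le)
  rwa [av_const hT] at h1

lemma av_mono {f g : ℝ → ℝ} {T : ℝ} (hT : 0 < T) (hf : IntervalIntegrable f volume 0 T)
    (hg : IntervalIntegrable g volume 0 T) (h : ∀ t, f t ≤ g t) : av f T ≤ av g T := by
  unfold av
  have := intervalIntegral.integral_mono hT.le hf hg h
  gcongr

lemma av_add {f g : ℝ → ℝ} {T : ℝ} (hf : IntervalIntegrable f volume 0 T)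
    (hg : IntervalIntegrable g volume 0 T) : av (fun t => f t + g t) T = av f T + av g T := by
  unfold av
  rw [intervalIntegral.integral_add hf hg, mul_add]

lemma av_mul {f : ℝ → ℝ} {T : ℝ} (c : ℝ) : av (fun t => c * f t) T = c * av f T := by
  unfold av
  rw [intervalIntegral.integral_const_mul]
  ring

/-- D3. -/
theorem mean_of_ap (u : ℝ → ℝ) (hu : Measurable u)
    (hu2 : ∀ T : ℝ, IntervalIntegrable (fun t => u t ^ 2) volume 0 T)
    (hap : ∀ e > 0, ∃ (n : ℕ) (c : Fin n → ℂ) (g : Fin n → ℝ), ∀ᶠ T : ℝ in atTop,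
      (1 / T) * ∫ t in (0 : ℝ)..T, ‖(u t : ℂ) - ∑ j, c j * Complex.exp (Complex.I * g j * t)‖ ^ 2 ≤ e)
    (Phi : ℝ → ℝ) (hPhi : Continuous Phi) (M : ℝ) (hM : ∀ x, |Phi x| ≤ M) :
    ∃ L : ℝ, Tendsto (fun T : ℝ => (1 / T) * ∫ t in (0 : ℝ)..T, Phi (u t)) atTop (𝓝 L) := by
  have hM0 : 0 ≤ M := (abs_nonneg _).trans (hM 0)
  -- trigonometric polynomials in the form of the statement
  have key : ∀ (n : ℕ) (c : Fin n → ℂ) (g : Fin n → ℝ),
      (fun t : ℝ => ∑ j, c j * Complex.exp (Complex.I * g j * t)) ∈ TP := by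
    intro n c g
    have h : (fun t : ℝ => ∑ j, c j * Complex.exp (Complex.I * g j * t)) = ∑ j, c j • chi (g j) := by
      funext t
      simp [chi, Finset.sum_apply]
    rw [h]
    exact TP.sum_mem fun j _ => TP.smul_mem _ (chi_mem _)
  have bd : ∀ (n : ℕ) (c : Fin n → ℂ) (g : Fin n → ℝ) (t : ℝ),
      ‖∑ j, c j * Complex.exp (Complex.I * g j * t)‖ ≤ ∑ j, ‖c j‖ := by
    intro n c g t
    refine (norm_sum_le _ _).trans (Finset.sum_le_sum fun j _ => ?_)
    rw [norm_mul]
    have : ‖Complex.exp (Complex.I * g j * t)‖ = 1 := chi_norm (g j) t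
    rw [this, mul_one]
  have ct : ∀ (n : ℕ) (c : Fin n → ℂ) (g : Fin n → ℝ),
      Continuous (fun t : ℝ => ∑ j, c j * Complex.exp (Complex.I * g j * t)) := by
    intro n c g
    fun_prop
  have ii : ∀ (n : ℕ) (c : Fin n → ℂ) (g : Fin n → ℝ) (T : ℝ), IntervalIntegrable
      (fun t : ℝ => ‖(u t : ℂ) - ∑ j, c j * Complex.exp (Complex.I * g j * t)‖ ^ 2) volume 0 T := by
    intro n c g T
    have h1 : IntervalIntegrable (fun t => 2 * u t ^ 2 + 2 * (∑ j, ‖c j‖) ^ 2) volume 0 T :=
      ((hu2 T).const_mul 2).add intervalIntegrable_const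
    refine h1.mono_fun' ?_ (ae_of_all _ fun t => ?_)
    · refine Measurable.aestronglyMeasurable ?_
      exact (((Complex.measurable_ofReal.comp hu).sub (ct n c g).measurable).norm).pow_const 2
    · have h2 := norm_sub_le ((u t : ℂ)) (∑ j, c j * Complex.exp (Complex.I * g j * t))
      have h3 := bd n c g t
      have h4 : ‖(u t : ℂ)‖ = |u t| := by rw [Complex.norm_real, Real.norm_eq_abs]
      rw [h4] at h2
      have h5 : ‖(u t : ℂ) - ∑ j, c j * Complex.exp (Complex.I * g j * t)‖ ≤ |u t| + ∑ j, ‖c j‖ := by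
        linarith
      have h6 : 0 ≤ ‖(u t : ℂ) - ∑ j, c j * Complex.exp (Complex.I * g j * t)‖ := norm_nonneg _
      simp only [Real.norm_eq_abs]
      rw [abs_of_nonneg (by positivity)]
      have h7 : |u t| ^ 2 = u t ^ 2 := sq_abs _
      nlinarith [sq_nonneg (|u t| - ∑ j, ‖c j‖)]
  -- second moment
  obtain ⟨n1, c1, g1, h1⟩ := hap 1 one_pos
  set R1 : ℝ := ∑ j, ‖c1 j‖ with hR1
  set K : ℝ := 2 + 2 * R1 ^ 2 with hK
  have hKpos : 0 < K := by positivity
  have hsec : ∀ᶠ T : ℝ in atTop, av (fun t => u t ^ 2) T ≤ K := by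
    filter_upwards [h1, eventually_gt_atTop (0 : ℝ)] with T h1 hT
    have h2 : av (fun t => u t ^ 2) T ≤ av (fun t =>
        2 * ‖(u t : ℂ) - ∑ j, c1 j * Complex.exp (Complex.I * g1 j * t)‖ ^ 2 + 2 * R1 ^ 2) T := by
      refine av_mono hT (hu2 T) (((ii n1 c1 g1 T).const_mul 2).add intervalIntegrable_const) fun t => ?_
      have h3 := bd n1 c1 g1 t
      have h4 : ‖(u t : ℂ)‖ = |u t| := by rw [Complex.norm_real, Real.norm_eq_abs]
      have h5 := norm_sub_norm_le ((u t : ℂ)) (∑ j, c1 j * Complex.exp (Complex.I * g1 j * t))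
      rw [h4] at h5
      have h6 : |u t| ≤ ‖(u t : ℂ) - ∑ j, c1 j * Complex.exp (Complex.I * g1 j * t)‖ + R1 := by
        linarith
      have h7 : |u t| ^ 2 = u t ^ 2 := sq_abs _
      have h8 : 0 ≤ |u t| := abs_nonneg _
      nlinarith [sq_nonneg (‖(u t : ℂ) - ∑ j, c1 j * Complex.exp (Complex.I * g1 j * t)‖ - R1)]
    rw [av_add ((ii n1 c1 g1 T).const_mul 2) intervalIntegrable_const, av_mul, av_const hT] at h2
    have h3 : av (fun t => ‖(u t : ℂ) - ∑ j, c1 j * Complex.exp (Complex.I * g1 j * t)‖ ^ 2) T ≤ 1 := h1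
    linarith
  refine lim_of_approx fun e he => ?_
  -- truncation
  set N : ℝ := max 1 (6 * M * K / e) with hN
  have hN1 : 1 ≤ N := le_max_left _ _
  have hN2 : 6 * M * K / e ≤ N := le_max_right _ _
  have hNsq : 6 * M * K / e ≤ N ^ 2 := by nlinarith
  have hNpos : 0 < N ^ 2 := by positivity
  have hMK : 2 * M / N ^ 2 * K ≤ e / 3 := by
    rw [div_mul_eq_mul_div, div_le_iff₀ hNpos]
    rw [div_le_iff₀ he] at hNsq
    linarith
  have huc := isCompact_Icc.uniformContinuousOn_of_continuous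
    (hPhi.continuousOn (s := Set.Icc (-(N + 1)) (N + 1)))
  rw [Metric.uniformContinuousOn_iff] at huc
  obtain ⟨d0, hd0, hd⟩ := huc (e / 3) (by positivity)
  set d : ℝ := min d0 1 with hdd
  have hdpos : 0 < d := lt_min hd0 one_pos
  have hdsq : 0 < d ^ 2 := by positivity
  have pw : ∀ a b : ℝ, |Phi a - Phi b| ≤ e / 3 + 2 * M / N ^ 2 * a ^ 2 + 2 * M / d ^ 2 * (a - b) ^ 2 := by
    intro a b
    have h2M : |Phi a - Phi b| ≤ 2 * M := by
      have := abs_sub (Phi a) (Phi b)
      linarith [hM a, hM b]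
    have hA : 0 ≤ 2 * M / N ^ 2 * a ^ 2 := by positivity
    have hB : 0 ≤ 2 * M / d ^ 2 * (a - b) ^ 2 := by positivity
    by_cases ha : N < |a|
    · have h1 : N ^ 2 ≤ a ^ 2 := by
        rw [← sq_abs a]
        exact pow_le_pow_left₀ (by linarith) ha.le 2
      have h2 : 2 * M ≤ 2 * M / N ^ 2 * a ^ 2 := by
        rw [div_mul_eq_mul_div, le_div_iff₀ hNpos]
        exact mul_le_mul_of_nonneg_left h1 (by linarith)
      linarith
    · by_cases hb : d ≤ |a - b|
      · have h1 : d ^ 2 ≤ (a - b) ^ 2 := by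
          rw [← sq_abs (a - b)]
          exact pow_le_pow_left₀ hdpos.le hb 2
        have h2 : 2 * M ≤ 2 * M / d ^ 2 * (a - b) ^ 2 := by
          rw [div_mul_eq_mul_div, le_div_iff₀ hdsq]
          exact mul_le_mul_of_nonneg_left h1 (by linarith)
        linarith
      · rw [not_lt] at ha
        rw [not_le] at hb
        have hb1 : |a - b| < 1 := hb.trans_le (min_le_right _ _)
        have hb0 : |a - b| < d0 := hb.trans_le (min_le_left _ _)
        rw [abs_le] at ha
        rw [abs_lt] at hb1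
        have := hd a ⟨by linarith, by linarith⟩ b ⟨by linarith, by linarith⟩ (by rwa [Real.dist_eq])
        rw [Real.dist_eq] at this
        linarith
  -- approximation
  obtain ⟨n2, c2, g2, h2⟩ := hap (d ^ 2 * e / (3 * (2 * M + 1))) (by positivity)
  set P : ℝ → ℂ := fun t => ∑ j, c2 j * Complex.exp (Complex.I * g2 j * t) with hP
  set p : ℝ → ℝ := fun t => (P t).re with hp
  have hpc : Continuous p := Complex.continuous_re.comp (ct n2 c2 g2)
  refine ⟨av fun t => Phi (p t), mean_comp (re_mem (key n2 c2 g2)) hpc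
    (R := ∑ j, ‖c2 j‖) (fun t => (Complex.abs_re_le_norm _).trans (bd n2 c2 g2 t)) hPhi, ?_⟩
  filter_upwards [h2, hsec, eventually_gt_atTop (0 : ℝ)] with T h2 h3 hT
  have i1 : IntervalIntegrable (fun t => Phi (u t)) volume 0 T :=
    ii_bdd (hPhi.measurable.comp hu) (fun t => hM _) T
  have i2 : IntervalIntegrable (fun t => Phi (p t)) volume 0 T :=
    (hPhi.comp hpc).intervalIntegrable _ _
  have i3 : IntervalIntegrable (fun t => e / 3 + 2 * M / N ^ 2 * u t ^ 2) volume 0 T :=
    intervalIntegrable_const.add ((hu2 T).const_mul _)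
  have i4 : IntervalIntegrable (fun t => 2 * M / d ^ 2 * ‖(u t : ℂ) - P t‖ ^ 2) volume 0 T :=
    (ii n2 c2 g2 T).const_mul _
  have h4 := av_le hT i1 i2 (i3.add i4) (fun t => by
    have h5 := pw (u t) (p t)
    have h6 : (u t - p t) ^ 2 ≤ ‖(u t : ℂ) - P t‖ ^ 2 := by
      have h7 : ((u t : ℂ) - P t).re = u t - p t := by simp [hp]
      rw [← h7, ← sq_abs]
      exact pow_le_pow_left₀ (abs_nonneg _) (Complex.abs_re_le_norm _) 2
    have h8 : 2 * M / d ^ 2 * (u t - p t) ^ 2 ≤ 2 * M / d ^ 2 * ‖(u t : ℂ) - P t‖ ^ 2 :=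
      mul_le_mul_of_nonneg_left h6 (by positivity)
    calc |Phi (u t) - Phi (p t)| ≤ e / 3 + 2 * M / N ^ 2 * u t ^ 2 + 2 * M / d ^ 2 * (u t - p t) ^ 2 := h5
      _ ≤ (e / 3 + 2 * M / N ^ 2 * u t ^ 2) + 2 * M / d ^ 2 * ‖(u t : ℂ) - P t‖ ^ 2 := by linarith)
  have h5 : av (fun t => (e / 3 + 2 * M / N ^ 2 * u t ^ 2) + 2 * M / d ^ 2 * ‖(u t : ℂ) - P t‖ ^ 2) T
      = e / 3 + 2 * M / N ^ 2 * av (fun t => u t ^ 2) T
        + 2 * M / d ^ 2 * av (fun t => ‖(u t : ℂ) - P t‖ ^ 2) T := by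
    rw [av_add i3 i4, av_add intervalIntegrable_const ((hu2 T).const_mul _), av_const hT, av_mul, av_mul]
  have h6 : av (fun t => ‖(u t : ℂ) - P t‖ ^ 2) T ≤ d ^ 2 * e / (3 * (2 * M + 1)) := h2
  have h7 : 2 * M / d ^ 2 * av (fun t => ‖(u t : ℂ) - P t‖ ^ 2) T ≤ e / 3 := by
    calc 2 * M / d ^ 2 * av (fun t => ‖(u t : ℂ) - P t‖ ^ 2) T
        ≤ 2 * M / d ^ 2 * (d ^ 2 * e / (3 * (2 * M + 1))) :=
          mul_le_mul_of_nonneg_left h6 (by positivity)
      _ = (2 * M) / (2 * M + 1) * (e / 3) := by field_simp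
      _ ≤ 1 * (e / 3) := by
          refine mul_le_mul_of_nonneg_right ?_ (by positivity)
          rw [div_le_one (by positivity)]
          linarith
      _ = e / 3 := one_mul _
  have h8 : 2 * M / N ^ 2 * av (fun t => u t ^ 2) T ≤ e / 3 :=
    (mul_le_mul_of_nonneg_left h3 (by positivity)).trans hMK
  have h9 : |av (fun t => Phi (u t)) T - av (fun t => Phi (p t)) T| ≤ e := by
    refine h4.trans ?_
    have : av ((fun t => e / 3 + 2 * M / N ^ 2 * u t ^ 2)
        + fun t => 2 * M / d ^ 2 * ‖(u t : ℂ) - P t‖ ^ 2) T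
      = e / 3 + 2 * M / N ^ 2 * av (fun t => u t ^ 2) T
        + 2 * M / d ^ 2 * av (fun t => ‖(u t : ℂ) - P t‖ ^ 2) T := h5
    linarith
  exact h9

end Pool.Agent.Helper56.CR.D3
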