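/-
CR, limiting distribution, leaf D3 in the Finset form (helper56).
-/
import Pool.Agent.Helper56.CR.D3

set_option autoImplicit false

namespace Pool.Agent.Helper56.CR.D3

open MeasureTheory Filter Topology

/-- D3, Finset form. -/
theorem mean_of_ap_finset {u : ℝ → ℝ} (hu : Measurable u)
    (hap : ∀ ε : ℝ, 0 < ε → ∃ (s : Finset ℝ) (c : ℝ → ℂ), ∀ᶠ T : ℝ in atTop,
      IntegrableOn (fun t : ℝ => ‖((u t : ℝ) : ℂ)
        - ∑ γ ∈ s, c γ * Complex.exp (((γ * t : ℝ) : ℂ) * Complex.I)‖ ^ 2) (Set.Ioc 0 T) ∧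
      (1 / T) * ∫ t in Set.Ioc 0 T, ‖((u t : ℝ) : ℂ)
        - ∑ γ ∈ s, c γ * Complex.exp (((γ * t : ℝ) : ℂ) * Complex.I)‖ ^ 2 ≤ ε) :
    ∀ Φ : ℝ → ℝ, Continuous Φ → (∃ M : ℝ, ∀ x, |Φ x| ≤ M) →
      ∃ l : ℝ, Tendsto (fun T : ℝ => (1 / T) * ∫ t in Set.Ioc 0 T, Φ (u t)) atTop (𝓝 l) := by
  intro Φ hΦ hM
  obtain ⟨M, hM⟩ := hM
  -- the trigonometric polynomials
  have bd : ∀ (s : Finset ℝ) (c : ℝ → ℂ) (t : ℝ),
      ‖∑ γ ∈ s, c γ * Complex.exp (((γ * t : ℝ) : ℂ) * Complex.I)‖ ≤ ∑ γ ∈ s, ‖c γ‖ := by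
    intro s c t
    refine (norm_sum_le _ _).trans (Finset.sum_le_sum fun γ _ => ?_)
    rw [norm_mul, Complex.norm_exp_ofReal_mul_I, mul_one]
  -- square integrability
  have hsq : ∀ T : ℝ, IntegrableOn (fun t => u t ^ 2) (Set.Ioc 0 T) := by
    intro T
    obtain ⟨s, c, h⟩ := hap 1 one_pos
    obtain ⟨T1, h1, h2⟩ := (h.and (eventually_ge_atTop T)).exists
    have h3 : IntegrableOn (fun t => u t ^ 2) (Set.Ioc 0 T1) := by
      have h4 : IntegrableOn (fun t : ℝ => 2 * ‖((u t : ℝ) : ℂ)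
          - ∑ γ ∈ s, c γ * Complex.exp (((γ * t : ℝ) : ℂ) * Complex.I)‖ ^ 2
          + 2 * (∑ γ ∈ s, ‖c γ‖) ^ 2) (Set.Ioc 0 T1) :=
        (h1.1.const_mul 2).add (integrableOn_const (by simp))
      refine h4.mono' (hu.pow_const 2).aestronglyMeasurable (ae_of_all _ fun t => ?_)
      have h5 := bd s c t
      have h6 : ‖((u t : ℝ) : ℂ)‖ = |u t| := by rw [Complex.norm_real, Real.norm_eq_abs]
      have h7 := norm_sub_norm_le ((u t : ℝ) : ℂ)
        (∑ γ ∈ s, c γ * Complex.exp (((γ * t : ℝ) : ℂ) * Complex.I))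
      rw [h6] at h7
      have h8 : |u t| ≤ ‖((u t : ℝ) : ℂ)
          - ∑ γ ∈ s, c γ * Complex.exp (((γ * t : ℝ) : ℂ) * Complex.I)‖ + ∑ γ ∈ s, ‖c γ‖ := by
        linarith
      have h9 : |u t| ^ 2 = u t ^ 2 := sq_abs _
      have h10 : 0 ≤ |u t| := abs_nonneg _
      rw [Real.norm_eq_abs, abs_of_nonneg (by positivity)]
      nlinarith [sq_nonneg (‖((u t : ℝ) : ℂ)
          - ∑ γ ∈ s, c γ * Complex.exp (((γ * t : ℝ) : ℂ) * Complex.I)‖ - ∑ γ ∈ s, ‖c γ‖)]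
    exact h3.mono_set (Set.Ioc_subset_Ioc_right h2)
  -- cut off the negative half line
  set v : ℝ → ℝ := (Set.Ioi (0 : ℝ)).indicator u with hv
  have hvm : Measurable v := hu.indicator measurableSet_Ioi
  have hvu : ∀ t : ℝ, 0 < t → v t = u t := fun t ht => Set.indicator_of_mem (Set.mem_Ioi.mpr ht) u
  have hv2 : ∀ T : ℝ, IntervalIntegrable (fun t => v t ^ 2) volume 0 T := by
    intro T
    rcases le_total 0 T with hT | hT
    · rw [intervalIntegrable_iff_integrableOn_Ioc_of_le hT]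
      exact (hsq T).congr_fun (fun t ht => by simp only [hvu t ht.1]) measurableSet_Ioc
    · refine IntervalIntegrable.symm ?_
      rw [intervalIntegrable_iff_integrableOn_Ioc_of_le hT]
      refine (integrableOn_zero (s := Set.Ioc T 0) (μ := volume)).congr_fun (fun t ht => ?_) measurableSet_Ioc
      have : v t = 0 := Set.indicator_of_notMem (fun h => absurd (Set.mem_Ioi.mp h) (not_lt.mpr ht.2)) u
      simp [this]
  have hvap : ∀ e > 0, ∃ (n : ℕ) (c : Fin n → ℂ) (g : Fin n → ℝ), ∀ᶠ T : ℝ in atTop,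
      (1 / T) * ∫ t in (0 : ℝ)..T, ‖(v t : ℂ) - ∑ j, c j * Complex.exp (Complex.I * g j * t)‖ ^ 2 ≤ e := by
    intro e he
    obtain ⟨s, c, h⟩ := hap e he
    refine ⟨s.card, fun j => c (s.equivFin.symm j), fun j => (s.equivFin.symm j : ℝ), ?_⟩
    filter_upwards [h, eventually_gt_atTop (0 : ℝ)] with T h1 hT
    rw [intervalIntegral.integral_of_le hT.le]
    have h2 : ∫ t in Set.Ioc 0 T, ‖(v t : ℂ)
          - ∑ j, c (s.equivFin.symm j) * Complex.exp (Complex.I * ((s.equivFin.symm j : ℝ) : ℂ) * t)‖ ^ 2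
        = ∫ t in Set.Ioc 0 T, ‖((u t : ℝ) : ℂ)
          - ∑ γ ∈ s, c γ * Complex.exp (((γ * t : ℝ) : ℂ) * Complex.I)‖ ^ 2 := by
      refine setIntegral_congr_fun measurableSet_Ioc fun t ht => ?_
      have h3 : ∑ j, c (s.equivFin.symm j) * Complex.exp (Complex.I * ((s.equivFin.symm j : ℝ) : ℂ) * t)
          = ∑ γ ∈ s, c γ * Complex.exp (((γ * t : ℝ) : ℂ) * Complex.I) := by
        rw [Equiv.sum_comp s.equivFin.symm
          (fun x : s => c x * Complex.exp (Complex.I * ((x : ℝ) : ℂ) * t)),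
          Finset.sum_coe_sort s (fun x : ℝ => c x * Complex.exp (Complex.I * (x : ℂ) * t))]
        refine Finset.sum_congr rfl fun γ _ => ?_
        congr 2
        push_cast
        ring
      simp only [hvu t ht.1, h3]
    rw [h2]
    exact h1.2
  obtain ⟨L, hL⟩ := mean_of_ap v hvm hv2 hvap Φ hΦ M hM
  refine ⟨L, hL.congr' ?_⟩
  filter_upwards [eventually_gt_atTop (0 : ℝ)] with T hT
  rw [intervalIntegral.integral_of_le hT.le]
  congr 1
  refine setIntegral_congr_fun measurableSet_Ioc fun t ht => ?_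
  simp only [hvu t ht.1]

end Pool.Agent.Helper56.CR.D3
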