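/-
CR, limiting distribution, leaf D6 (helper56): the limit law integrates every continuous function of at most
quadratic growth.
-/
import Pool.Agent.Helper29.CR.D3
import Pool.Agent.Helper85.CR.D5

set_option autoImplicit false

namespace Pool.Agent.Helper16.CR

open Filter Topology MeasureTheory Set Complex

/-- cutting at `R` -/
noncomputable def d6cl (R y : ℝ) : ℝ := max (-R) (min R y)

theorem d6cl_cont (R : ℝ) : Continuous (d6cl R) :=
  continuous_const.max (continuous_const.min continuous_id)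

theorem d6cl_eq {R y : ℝ} (h : |y| ≤ R) : d6cl R y = y := by
  rw [abs_le] at h
  unfold d6cl
  rw [min_eq_right h.2, max_eq_right h.1]

theorem d6cl_le {R y : ℝ} (hR : 0 ≤ R) : |d6cl R y| ≤ R := by
  unfold d6cl
  rw [abs_le]
  exact ⟨le_max_left _ _, max_le (by linarith) (min_le_left _ _)⟩

theorem d6cl_abs {R y : ℝ} (hR : 0 ≤ R) : |d6cl R y| ≤ |y| := by
  rcases le_total |y| R with h | h
  · rw [d6cl_eq h]
  · exact (d6cl_le hR).trans h

theorem d6_cut {Φ : ℝ → ℝ} {C : ℝ} (hC : ∀ y, |Φ y| ≤ C * (1 + y ^ 2)) {R B e y : ℝ} (hR : 1 ≤ R)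
    (hRB : 2 * B ≤ R) (hy : |y| ≤ e + B) : |Φ y - Φ (d6cl R y)| ≤ 16 * C * e ^ 2 := by
  have hC0 : 0 ≤ C := by
    have h1 := (abs_nonneg _).trans (hC 0)
    simpa using h1
  rcases le_or_gt |y| R with h | h
  · rw [d6cl_eq h, sub_self, abs_zero]
    positivity
  · have h1 : |Φ y - Φ (d6cl R y)| ≤ |Φ y| + |Φ (d6cl R y)| := abs_sub _ _
    have h2 := hC y
    have h3 := hC (d6cl R y)
    have h4 : d6cl R y ^ 2 ≤ y ^ 2 := by
      rw [← sq_abs (d6cl R y), ← sq_abs y]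
      exact pow_le_pow_left₀ (abs_nonneg _) (d6cl_abs (by linarith)) 2
    have h5 : C * (1 + d6cl R y ^ 2) ≤ C * (1 + y ^ 2) := mul_le_mul_of_nonneg_left (by linarith) hC0
    have h6 : 1 ≤ y ^ 2 := by
      rw [← sq_abs y]
      nlinarith
    have h7 : y ^ 2 ≤ 4 * e ^ 2 := by
      have h8 : |y| ≤ 2 * e := by linarith
      rw [← sq_abs y]
      have h9 : |y| ^ 2 ≤ (2 * e) ^ 2 := pow_le_pow_left₀ (abs_nonneg _) h8 2
      linarith
    have h8 : C * (1 + y ^ 2) ≤ C * (8 * e ^ 2) := mul_le_mul_of_nonneg_left (by linarith) hC0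
    linarith

/-- D6. -/
theorem law_quad {u : ℝ → ℝ} (hu : Measurable u)
    (hap : ∀ e : ℝ, 0 < e → ∃ (s : Finset ℝ) (c : ℝ → ℂ), ∀ᶠ T : ℝ in atTop,
      IntegrableOn (fun t => ‖(u t : ℂ) - ∑ γ ∈ s, c γ * cexp (((γ * t : ℝ) : ℂ) * I)‖ ^ 2) (Ioc 0 T) ∧
      (1 / T) * ∫ t in Ioc 0 T, ‖(u t : ℂ) - ∑ γ ∈ s, c γ * cexp (((γ * t : ℝ) : ℂ) * I)‖ ^ 2 ≤ e) :
    ∃ μ : Measure ℝ, IsProbabilityMeasure μ ∧ Integrable (fun y : ℝ => y ^ 2) μ ∧
      ∀ Φ : ℝ → ℝ, Continuous Φ → (∃ C : ℝ, ∀ y, |Φ y| ≤ C * (1 + y ^ 2)) →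
        Tendsto (fun T : ℝ => (1 / T) * ∫ t in Ioc 0 T, Φ (u t)) atTop (𝓝 (∫ y, Φ y ∂μ)) := by
  have bd : ∀ (s : Finset ℝ) (c : ℝ → ℂ) (t : ℝ),
      ‖∑ γ ∈ s, c γ * cexp (((γ * t : ℝ) : ℂ) * I)‖ ≤ ∑ γ ∈ s, ‖c γ‖ := by
    intro s c t
    refine (norm_sum_le _ _).trans (Finset.sum_le_sum fun γ _ => ?_)
    rw [norm_mul, Complex.norm_exp_ofReal_mul_I, mul_one]
  have ub : ∀ (s : Finset ℝ) (c : ℝ → ℂ) (t : ℝ),
      |u t| ≤ ‖(u t : ℂ) - ∑ γ ∈ s, c γ * cexp (((γ * t : ℝ) : ℂ) * I)‖ + ∑ γ ∈ s, ‖c γ‖ := by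
    intro s c t
    have h1 := bd s c t
    have h2 : ‖(u t : ℂ)‖ = |u t| := by rw [Complex.norm_real, Real.norm_eq_abs]
    have h3 := norm_sub_norm_le (u t : ℂ) (∑ γ ∈ s, c γ * cexp (((γ * t : ℝ) : ℂ) * I))
    rw [h2] at h3
    linarith
  have usq : ∀ (s : Finset ℝ) (c : ℝ → ℂ) (t : ℝ),
      u t ^ 2 ≤ 2 * ‖(u t : ℂ) - ∑ γ ∈ s, c γ * cexp (((γ * t : ℝ) : ℂ) * I)‖ ^ 2
        + 2 * (∑ γ ∈ s, ‖c γ‖) ^ 2 := by
    intro s c t
    have h1 := ub s c t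
    have h2 : |u t| ^ 2 = u t ^ 2 := sq_abs _
    have h3 : 0 ≤ |u t| := abs_nonneg _
    nlinarith [sq_nonneg (‖(u t : ℂ) - ∑ γ ∈ s, c γ * cexp (((γ * t : ℝ) : ℂ) * I)‖ - ∑ γ ∈ s, ‖c γ‖)]
  obtain ⟨s1, c1, h1⟩ := hap 1 one_pos
  set B1 : ℝ := ∑ γ ∈ s1, ‖c1 γ‖ with hB1
  set K0 : ℝ := 2 + 2 * B1 ^ 2 with hK0
  have hK0pos : 0 < K0 := by positivity
  have hdom : ∀ T : ℝ, IntegrableOn (fun t => ‖(u t : ℂ)
      - ∑ γ ∈ s1, c1 γ * cexp (((γ * t : ℝ) : ℂ) * I)‖ ^ 2) (Ioc 0 T) →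
      IntegrableOn (fun t => 2 * ‖(u t : ℂ) - ∑ γ ∈ s1, c1 γ * cexp (((γ * t : ℝ) : ℂ) * I)‖ ^ 2
        + 2 * B1 ^ 2) (Ioc 0 T) := fun T h => (h.const_mul 2).add (integrableOn_const (by simp))
  have hsq : ∀ T : ℝ, IntegrableOn (fun t => u t ^ 2) (Ioc 0 T) := by
    intro T
    obtain ⟨T1, h2, h3⟩ := (h1.and (eventually_ge_atTop T)).exists
    have h4 : IntegrableOn (fun t => u t ^ 2) (Ioc 0 T1) := by
      refine (hdom T1 h2.1).mono' (hu.pow_const 2).aestronglyMeasurable (ae_of_all _ fun t => ?_)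
      rw [Real.norm_eq_abs, abs_of_nonneg (by positivity)]
      exact usq s1 c1 t
    exact h4.mono_set (Ioc_subset_Ioc_right h3)
  have hmom : ∀ᶠ T : ℝ in atTop, (1 / T) * ∫ t in Ioc 0 T, u t ^ 2 ≤ K0 := by
    filter_upwards [h1, eventually_gt_atTop (0 : ℝ)] with T h2 hT
    have h3 : ∫ t in Ioc 0 T, u t ^ 2 ≤ ∫ t in Ioc 0 T, (2 * ‖(u t : ℂ)
        - ∑ γ ∈ s1, c1 γ * cexp (((γ * t : ℝ) : ℂ) * I)‖ ^ 2 + 2 * B1 ^ 2) :=
      integral_mono (hsq T) (hdom T h2.1) fun t => usq s1 c1 t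
    have h4 : ∫ t in Ioc 0 T, (2 * ‖(u t : ℂ)
        - ∑ γ ∈ s1, c1 γ * cexp (((γ * t : ℝ) : ℂ) * I)‖ ^ 2 + 2 * B1 ^ 2)
        = 2 * (∫ t in Ioc 0 T, ‖(u t : ℂ)
        - ∑ γ ∈ s1, c1 γ * cexp (((γ * t : ℝ) : ℂ) * I)‖ ^ 2) + T * (2 * B1 ^ 2) := by
      rw [integral_add (h2.1.const_mul 2) (integrableOn_const (by simp)), integral_const_mul,
        setIntegral_const]
      simp [hT.le]
    have h5 : ∀ J : ℝ, (1 / T) * (2 * J + T * (2 * B1 ^ 2)) = 2 * ((1 / T) * J) + 2 * B1 ^ 2 := by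
      intro J
      field_simp
    calc (1 / T) * ∫ t in Ioc 0 T, u t ^ 2
        ≤ (1 / T) * (2 * (∫ t in Ioc 0 T, ‖(u t : ℂ)
        - ∑ γ ∈ s1, c1 γ * cexp (((γ * t : ℝ) : ℂ) * I)‖ ^ 2) + T * (2 * B1 ^ 2)) := by
          refine mul_le_mul_of_nonneg_left (h3.trans h4.le) (by positivity)
      _ = 2 * ((1 / T) * (∫ t in Ioc 0 T, ‖(u t : ℂ)
        - ∑ γ ∈ s1, c1 γ * cexp (((γ * t : ℝ) : ℂ) * I)‖ ^ 2)) + 2 * B1 ^ 2 := h5 _
      _ ≤ K0 := by linarith [h2.2]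
  -- a bound for all T >= 1
  obtain ⟨T1, hT1⟩ := eventually_atTop.mp hmom
  set T2 : ℝ := max 1 T1 with hT2
  have hT21 : 1 ≤ T2 := le_max_left _ _
  have hKall : ∀ T : ℝ, 1 ≤ T → IntegrableOn (fun t => u t ^ 2) (Ioc 0 T) ∧
      ∫ t in Ioc 0 T, u t ^ 2 ≤ (K0 * T2) * T := by
    intro T hT
    refine ⟨hsq T, ?_⟩
    have big : ∀ S : ℝ, T2 ≤ S → ∫ t in Ioc 0 S, u t ^ 2 ≤ K0 * S := by
      intro S hS
      have hS0 : 0 < S := by linarith
      have h3 := hT1 S ((le_max_right _ _).trans hS)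
      rw [one_div, inv_mul_le_iff₀ hS0] at h3
      linarith
    rcases le_total T2 T with h | h
    · refine (big T h).trans ?_
      have h5 : K0 * T ≤ K0 * T2 * T := by
        have : 0 < K0 * T := by positivity
        nlinarith
      exact h5
    · have h3 : ∫ t in Ioc 0 T, u t ^ 2 ≤ ∫ t in Ioc 0 T2, u t ^ 2 :=
        setIntegral_mono_set (hsq T2) (ae_of_all _ fun t => sq_nonneg _)
          (Ioc_subset_Ioc_right h).eventuallyLE
      have h4 := big T2 le_rfl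
      have : 0 < K0 * T2 := by positivity
      nlinarith
  obtain ⟨μ, hμ⟩ := exists_law hu (K0 * T2) hKall (fun Φ hΦ hM => by
    obtain ⟨M, hM⟩ := hM
    exact mean_of_ap hu hap Φ hΦ M hM)
  -- the second moment of the law
  have hmin : ∀ n : ℕ, ∫ y, min (y ^ 2) (n : ℝ) ∂(μ : Measure ℝ) ≤ K0 := by
    intro n
    have h2 := hμ (fun y => min (y ^ 2) (n : ℝ)) (by fun_prop)
      ⟨n, fun y => by
        rw [abs_of_nonneg (le_min (sq_nonneg _) (Nat.cast_nonneg _))]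
        exact min_le_right _ _⟩
    refine le_of_tendsto h2 ?_
    filter_upwards [hmom, eventually_gt_atTop (0 : ℝ)] with T h3 hT
    refine le_trans (mul_le_mul_of_nonneg_left ?_ (by positivity)) h3
    refine integral_mono_of_nonneg (ae_of_all _ fun t => le_min (sq_nonneg _) (Nat.cast_nonneg _)) (hsq T)
      (ae_of_all _ fun t => min_le_left _ _)
  have hint_min : ∀ n : ℕ, Integrable (fun y : ℝ => min (y ^ 2) (n : ℝ)) (μ : Measure ℝ) := by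
    intro n
    refine (integrable_const (n : ℝ)).mono' (by fun_prop) (ae_of_all _ fun y => ?_)
    rw [Real.norm_eq_abs, abs_of_nonneg (le_min (sq_nonneg _) (Nat.cast_nonneg _))]
    exact min_le_right _ _
  have hlint : ∫⁻ y, ENNReal.ofReal (y ^ 2) ∂(μ : Measure ℝ) ≤ ENNReal.ofReal K0 := by
    have h2 : Tendsto (fun n : ℕ => ∫⁻ y, ENNReal.ofReal (min (y ^ 2) (n : ℝ)) ∂(μ : Measure ℝ)) atTop
        (𝓝 (∫⁻ y, ENNReal.ofReal (y ^ 2) ∂(μ : Measure ℝ))) := by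
      refine lintegral_tendsto_of_tendsto_of_monotone (fun n => by fun_prop) ?_ ?_
      · refine ae_of_all _ fun y => fun n m hnm => ?_
        exact ENNReal.ofReal_le_ofReal (min_le_min_left _ (by exact_mod_cast hnm))
      · refine ae_of_all _ fun y => ?_
        refine tendsto_const_nhds.congr' ?_
        filter_upwards [eventually_ge_atTop ⌈y ^ 2⌉₊] with n hn
        rw [min_eq_left]
        exact (Nat.le_ceil _).trans (by exact_mod_cast hn)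
    refine le_of_tendsto' h2 fun n => ?_
    rw [← ofReal_integral_eq_lintegral_ofReal (hint_min n)
      (ae_of_all _ fun y => le_min (sq_nonneg _) (Nat.cast_nonneg _))]
    exact ENNReal.ofReal_le_ofReal (hmin n)
  have hint2 : Integrable (fun y : ℝ => y ^ 2) (μ : Measure ℝ) := by
    refine ⟨by fun_prop, ?_⟩
    rw [hasFiniteIntegral_iff_ofReal (ae_of_all _ fun y => sq_nonneg _)]
    exact hlint.trans_lt ENNReal.ofReal_lt_top
  refine ⟨μ, inferInstance, hint2, fun Φ hΦ hC => ?_⟩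
  obtain ⟨C, hC⟩ := hC
  have hC0 : 0 ≤ C := by
    have h2 := (abs_nonneg _).trans (hC 0)
    simpa using h2
  have hdomC : Integrable (fun y : ℝ => C * (1 + y ^ 2)) (μ : Measure ℝ) :=
    ((integrable_const (1 : ℝ)).add hint2).const_mul C
  have hcut : Tendsto (fun n : ℕ => ∫ y, Φ (d6cl (n : ℝ) y) ∂(μ : Measure ℝ)) atTop
      (𝓝 (∫ y, Φ y ∂(μ : Measure ℝ))) := by
    refine tendsto_integral_of_dominated_convergence (fun y => C * (1 + y ^ 2))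
      (fun n => (hΦ.comp (d6cl_cont _)).aestronglyMeasurable) hdomC ?_ ?_
    · intro n
      refine ae_of_all _ fun y => ?_
      rw [Real.norm_eq_abs]
      refine (hC _).trans (mul_le_mul_of_nonneg_left ?_ hC0)
      have h4 : d6cl (n : ℝ) y ^ 2 ≤ y ^ 2 := by
        rw [← sq_abs (d6cl (n : ℝ) y), ← sq_abs y]
        exact pow_le_pow_left₀ (abs_nonneg _) (d6cl_abs (Nat.cast_nonneg _)) 2
      linarith
    · refine ae_of_all _ fun y => ?_
      refine tendsto_const_nhds.congr' ?_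
      filter_upwards [eventually_ge_atTop ⌈|y|⌉₊] with n hn
      rw [d6cl_eq]
      exact (Nat.le_ceil _).trans (by exact_mod_cast hn)
  rw [Metric.tendsto_nhds]
  intro e he
  obtain ⟨s2, c2, h2⟩ := hap (e / (64 * (C + 1))) (by positivity)
  set B2 : ℝ := ∑ γ ∈ s2, ‖c2 γ‖ with hB2
  obtain ⟨n, hn1, hn2⟩ := ((Metric.tendsto_nhds.mp hcut (e / 4) (by positivity)).and
    (eventually_ge_atTop ⌈max 1 (2 * B2)⌉₊)).exists
  have hnR : max 1 (2 * B2) ≤ (n : ℝ) := (Nat.le_ceil _).trans (by exact_mod_cast hn2)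
  have hn3 : (1 : ℝ) ≤ n := (le_max_left _ _).trans hnR
  have hn4 : 2 * B2 ≤ n := (le_max_right _ _).trans hnR
  -- the cut function is bounded
  have hbdd : ∃ M : ℝ, ∀ y, |Φ (d6cl (n : ℝ) y)| ≤ M := by
    refine ⟨C * (1 + (n : ℝ) ^ 2), fun y => (hC _).trans (mul_le_mul_of_nonneg_left ?_ hC0)⟩
    have h4 : d6cl (n : ℝ) y ^ 2 ≤ (n : ℝ) ^ 2 := by
      rw [← sq_abs (d6cl (n : ℝ) y)]
      exact pow_le_pow_left₀ (abs_nonneg _) (d6cl_le (Nat.cast_nonneg _)) 2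
    linarith
  have h3 := Metric.tendsto_nhds.mp (hμ (fun y => Φ (d6cl (n : ℝ) y)) (hΦ.comp (d6cl_cont _)) hbdd)
    (e / 4) (by positivity)
  filter_upwards [h2, h3, eventually_gt_atTop (0 : ℝ)] with T h2 h3 hT
  have iC : IntegrableOn (fun t => C * (1 + u t ^ 2)) (Ioc 0 T) :=
    ((integrableOn_const (by simp)).add (hsq T)).const_mul C
  have i1 : IntegrableOn (fun t => Φ (u t)) (Ioc 0 T) := by
    refine iC.mono' (hΦ.measurable.comp hu).aestronglyMeasurable (ae_of_all _ fun t => ?_)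
    rw [Real.norm_eq_abs]
    exact hC _
  have i2 : IntegrableOn (fun t => Φ (d6cl (n : ℝ) (u t))) (Ioc 0 T) := by
    obtain ⟨M, hM⟩ := hbdd
    refine (integrableOn_const (C := M) (by simp)).mono'
      ((hΦ.comp (d6cl_cont _)).measurable.comp hu).aestronglyMeasurable (ae_of_all _ fun t => ?_)
    rw [Real.norm_eq_abs]
    exact hM _
  have h5 : |(1 / T) * (∫ t in Ioc 0 T, Φ (u t)) - (1 / T) * ∫ t in Ioc 0 T, Φ (d6cl (n : ℝ) (u t))|
      ≤ e / 4 := by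
    rw [← mul_sub, ← integral_sub i1 i2, abs_mul, abs_of_pos (by positivity : (0 : ℝ) < 1 / T)]
    have h6 : |∫ t in Ioc 0 T, (Φ (u t) - Φ (d6cl (n : ℝ) (u t)))|
        ≤ ∫ t in Ioc 0 T, 16 * C * ‖(u t : ℂ) - ∑ γ ∈ s2, c2 γ * cexp (((γ * t : ℝ) : ℂ) * I)‖ ^ 2 := by
      have h7 := norm_integral_le_of_norm_le (h2.1.const_mul (16 * C))
        (ae_of_all _ fun t => by
          rw [Real.norm_eq_abs]
          exact d6_cut hC hn3 hn4 (ub s2 c2 t))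
      simpa [Real.norm_eq_abs] using h7
    rw [integral_const_mul] at h6
    calc 1 / T * |∫ t in Ioc 0 T, (Φ (u t) - Φ (d6cl (n : ℝ) (u t)))|
        ≤ 1 / T * (16 * C * ∫ t in Ioc 0 T, ‖(u t : ℂ)
          - ∑ γ ∈ s2, c2 γ * cexp (((γ * t : ℝ) : ℂ) * I)‖ ^ 2) :=
          mul_le_mul_of_nonneg_left h6 (by positivity)
      _ = 16 * C * (1 / T * ∫ t in Ioc 0 T, ‖(u t : ℂ)
          - ∑ γ ∈ s2, c2 γ * cexp (((γ * t : ℝ) : ℂ) * I)‖ ^ 2) := by ring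
      _ ≤ 16 * C * (e / (64 * (C + 1))) := mul_le_mul_of_nonneg_left h2.2 (by positivity)
      _ = C / (C + 1) * (e / 4) := by
          field_simp
          ring
      _ ≤ 1 * (e / 4) := by
          refine mul_le_mul_of_nonneg_right ?_ (by positivity)
          rw [div_le_one (by positivity)]
          linarith
      _ = e / 4 := one_mul _
  rw [Real.dist_eq] at h3 hn1 ⊢
  have h6 := abs_sub_le ((1 / T) * ∫ t in Ioc 0 T, Φ (u t))
    ((1 / T) * ∫ t in Ioc 0 T, Φ (d6cl (n : ℝ) (u t))) (∫ y, Φ y ∂(μ : Measure ℝ))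
  have h7 := abs_sub_le ((1 / T) * ∫ t in Ioc 0 T, Φ (d6cl (n : ℝ) (u t)))
    (∫ y, Φ (d6cl (n : ℝ) y) ∂(μ : Measure ℝ)) (∫ y, Φ y ∂(μ : Measure ℝ))
  linarith

end Pool.Agent.Helper16.CR
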