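/-
CR, limiting distribution, leaf D9 (helper56): returns of finitely many exponentials have positive lower density.
-/
import Mathlib

set_option autoImplicit false

namespace Pool.Agent.Helper56.CR.D9

open MeasureTheory Filter Topology Set Complex

/-- The times in `(0, T]` at which all `exp (i g t)`, `g` in `S`, are close to `1`. -/
def Dset (S : Finset ℝ) (d T : ℝ) : Set ℝ :=
  {t | t ∈ Ioc 0 T ∧ ∀ g ∈ S, ‖cexp (((g * t : ℝ) : ℂ) * I) - 1‖ ≤ d}

theorem Dset_meas (S : Finset ℝ) (d T : ℝ) : MeasurableSet (Dset S d T) := by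
  have h : Dset S d T = Ioc 0 T ∩ ⋂ g ∈ S, {t : ℝ | ‖cexp (((g * t : ℝ) : ℂ) * I) - 1‖ ≤ d} := by
    ext t
    simp [Dset]
  rw [h]
  refine measurableSet_Ioc.inter (Finset.measurableSet_biInter S fun g _ => ?_)
  refine (isClosed_le ?_ continuous_const).measurableSet
  fun_prop

theorem Dset_sub (S : Finset ℝ) (d T : ℝ) : Dset S d T ⊆ Ioc 0 T := fun _ h => h.1

theorem return_density (S : Finset ℝ) (d : ℝ) (hd : 0 < d) :
    ∃ c : ℝ, 0 < c ∧ ∀ T : ℝ, 0 < T → c * T ≤ volume.real (Dset S d T) := by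
  classical
  -- the curve in the torus
  set f : ℝ → (S → ℂ) := fun t g => cexp ((((g : ℝ) * t : ℝ) : ℂ) * I) with hf
  have hfc : Continuous f := by
    refine continuous_pi fun g => ?_
    simp only [hf]
    fun_prop
  have hfb : ∀ t, f t ∈ Metric.closedBall (0 : S → ℂ) 1 := by
    intro t
    rw [mem_closedBall_zero_iff, pi_norm_le_iff_of_nonneg zero_le_one]
    intro g
    simp only [hf]
    rw [Complex.norm_exp_ofReal_mul_I]
  obtain ⟨F, -, hFfin, hFcov⟩ := (isCompact_closedBall (0 : S → ℂ) 1).finite_cover_balls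
    (e := d / 2) (by positivity)
  set FF : Finset (S → ℂ) := hFfin.toFinset with hFF
  have hne : FF.Nonempty := by
    have h1 := hFcov (hfb 0)
    simp only [mem_iUnion] at h1
    obtain ⟨z, hz, -⟩ := h1
    exact ⟨z, hFfin.mem_toFinset.mpr hz⟩
  have hMpos : (0 : ℝ) < FF.card := by exact_mod_cast hne.card_pos
  refine ⟨1 / (2 * FF.card), by positivity, fun T hT => ?_⟩
  -- one ball is visited often
  obtain ⟨z, -, hz⟩ : ∃ z ∈ FF, T / FF.card ≤ volume.real (Ioc 0 T ∩ f ⁻¹' Metric.ball z (d / 2)) := by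
    by_contra hcon
    push Not at hcon
    have h1 : volume.real (Ioc 0 T) ≤ ∑ z ∈ FF, volume.real (Ioc 0 T ∩ f ⁻¹' Metric.ball z (d / 2)) := by
      have h2 : Ioc 0 T ⊆ ⋃ z ∈ FF, (Ioc 0 T ∩ f ⁻¹' Metric.ball z (d / 2)) := by
        intro t ht
        have h3 := hFcov (hfb t)
        simp only [mem_iUnion] at h3 ⊢
        obtain ⟨z, hz, hz2⟩ := h3
        exact ⟨z, hFfin.mem_toFinset.mpr hz, ht, hz2⟩
      have h4 : volume.real (⋃ z ∈ FF, (Ioc 0 T ∩ f ⁻¹' Metric.ball z (d / 2)))
          ≤ ∑ z ∈ FF, volume.real (Ioc 0 T ∩ f ⁻¹' Metric.ball z (d / 2)) :=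
        measureReal_biUnion_finset_le _ _
      refine le_trans (measureReal_mono h2 ?_) h4
      refine ne_of_lt (lt_of_le_of_lt (measure_mono (iUnion₂_subset fun z _ => inter_subset_left))
        (measure_Ioc_lt_top (a := (0 : ℝ)) (b := T)))
    have h5 : ∑ z ∈ FF, volume.real (Ioc 0 T ∩ f ⁻¹' Metric.ball z (d / 2)) < ∑ _z ∈ FF, T / FF.card :=
      Finset.sum_lt_sum_of_nonempty hne fun z hz => hcon z hz
    rw [Finset.sum_const, nsmul_eq_mul, mul_div_cancel₀ _ hMpos.ne'] at h5
    rw [Real.volume_real_Ioc_of_le hT.le, sub_zero] at h1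
    linarith
  set A : Set ℝ := Ioc 0 T ∩ f ⁻¹' Metric.ball z (d / 2) with hA
  have hAm : MeasurableSet A := measurableSet_Ioc.inter (hfc.measurable Metric.isOpen_ball.measurableSet)
  have hAT : A ⊆ Ioc 0 T := inter_subset_left
  have hAfin : volume A ≠ ⊤ := ne_of_lt (lt_of_le_of_lt (measure_mono hAT) measure_Ioc_lt_top)
  have hAne : A.Nonempty := by
    by_contra h
    rw [not_nonempty_iff_eq_empty] at h
    rw [h] at hz
    simp only [measureReal_empty] at hz
    have : 0 < T / FF.card := by positivity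
    linarith
  have hbdd : BddBelow A := ⟨0, fun t ht => (hAT ht).1.le⟩
  set tau : ℝ := sInf A with htau
  obtain ⟨t0, ht0, ht0'⟩ := exists_lt_of_csInf_lt hAne
    (show sInf A < tau + T / (2 * FF.card) by
      rw [← htau]
      have : 0 < T / (2 * FF.card) := by positivity
      linarith)
  -- the part of A after t0
  have hB : T / (2 * FF.card) ≤ volume.real (A ∩ Ioc t0 T) := by
    have h1 : A ⊆ Icc tau t0 ∪ (A ∩ Ioc t0 T) := by
      intro t ht
      rcases le_or_gt t t0 with h | h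
      · exact Or.inl ⟨csInf_le hbdd ht, h⟩
      · exact Or.inr ⟨ht, h, (hAT ht).2⟩
    have h2 : volume.real A ≤ volume.real (Icc tau t0) + volume.real (A ∩ Ioc t0 T) := by
      refine le_trans (measureReal_mono h1 ?_) (measureReal_union_le _ _)
      refine ne_of_lt (lt_of_le_of_lt (measure_union_le _ _) ?_)
      exact ENNReal.add_lt_top.mpr ⟨measure_Icc_lt_top,
        lt_of_le_of_lt (measure_mono inter_subset_left) (lt_top_iff_ne_top.mpr hAfin)⟩
    have h3 : volume.real (Icc tau t0) = t0 - tau := by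
      rw [Real.volume_real_Icc_of_le (csInf_le hbdd ht0)]
    have h4 : T / FF.card = 2 * (T / (2 * FF.card)) := by
      field_simp
    rw [h3] at h2
    linarith
  -- translate
  have h5 : (fun x => x + t0) ⁻¹' (A ∩ Ioc t0 T) ⊆ Dset S d T := by
    intro x hx
    obtain ⟨hx1, hx2, hx3⟩ := hx
    have ht0pos : 0 < t0 := (hAT ht0).1
    refine ⟨⟨by linarith, by linarith⟩, fun g hg => ?_⟩
    have h6 : dist (f (x + t0)) (f t0) ≤ d := by
      have h7 := hx1.2
      have h8 := ht0.2
      rw [mem_preimage, Metric.mem_ball] at h7 h8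
      have h9 := dist_triangle_right (f (x + t0)) (f t0) z
      linarith
    have h7 : dist (f (x + t0) ⟨g, hg⟩) (f t0 ⟨g, hg⟩) ≤ d := (dist_le_pi_dist _ _ _).trans h6
    have h8 : f (x + t0) ⟨g, hg⟩ - f t0 ⟨g, hg⟩
        = (cexp (((g * x : ℝ) : ℂ) * I) - 1) * cexp (((g * t0 : ℝ) : ℂ) * I) := by
      simp only [hf]
      rw [sub_mul, ← Complex.exp_add, one_mul]
      congr 2
      push_cast
      ring
    rw [dist_eq_norm, h8, norm_mul, Complex.norm_exp_ofReal_mul_I, mul_one] at h7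
    exact h7
  have h6 : volume.real ((fun x => x + t0) ⁻¹' (A ∩ Ioc t0 T)) = volume.real (A ∩ Ioc t0 T) := by
    unfold Measure.real
    rw [measure_preimage_add_right]
  have h7 : volume.real ((fun x => x + t0) ⁻¹' (A ∩ Ioc t0 T)) ≤ volume.real (Dset S d T) :=
    measureReal_mono h5 (ne_of_lt (lt_of_le_of_lt (measure_mono (Dset_sub S d T)) measure_Ioc_lt_top))
  calc 1 / (2 * FF.card) * T = T / (2 * FF.card) := by ring
    _ ≤ _ := by rw [h6] at h7; exact hB.trans h7

end Pool.Agent.Helper56.CR.D9
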